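import Mathlib

/-! # Sweeping a lower envelope of linear functions

`S` is a finite set of sites, the site `p` has the cost `K p - x * B p - t * A p` at the point
`(x, t)`, and the strip `0 ≤ t ≤ H` is swept by the line of parameter `x`.  A site is *fat* at time
`x` if it is cheapest on a nondegenerate segment of the line.  Around every time `x` the set of fat
sites changes by deletions followed by insertions, and every single deletion or insertion comes
from a tie at one point of the line, with a definite orientation. -/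

namespace Pool.Agent.Strip051.Sweep

open Filter Topology

variable {ι : Type*}

/-- Sites with linear costs. -/
structure Data (ι : Type*) where
  A : ι → ℝ
  B : ι → ℝ
  K : ι → ℝ
  S : Finset ι
  H : ℝ
  hH : 0 < H
  ne : S.Nonempty
  inj : ∀ p ∈ S, ∀ q ∈ S, A p = A q → p = q

namespace Data

variable (d : Data ι)

/-- The cost of `p` at `(x, t)`. -/
def cost (p : ι) (x t : ℝ) : ℝ := d.K p - x * d.B p - t * d.A p

/-- `p` is cheapest at `(x, t)`. -/
def Own (p : ι) (x t : ℝ) : Prop :=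
  p ∈ d.S ∧ 0 ≤ t ∧ t ≤ d.H ∧ ∀ q ∈ d.S, d.cost p x t ≤ d.cost q x t

/-- `p` is cheapest on a nondegenerate segment of the line `x`. -/
def Fat (p : ι) (x : ℝ) : Prop := ∃ t1 t2, t1 < t2 ∧ d.Own p x t1 ∧ d.Own p x t2

/-- Mirror image. -/
def neg : Data ι where
  A := d.A
  B := fun p => -d.B p
  K := d.K
  S := d.S
  H := d.H
  hH := d.hH
  ne := d.ne
  inj := d.inj

theorem neg_cost (p : ι) (x t : ℝ) : d.neg.cost p x t = d.cost p (-x) t := by
  simp [neg, cost]

theorem neg_own (p : ι) (x t : ℝ) : d.neg.Own p x t ↔ d.Own p (-x) t := by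
  simp only [Own, neg_cost]
  rfl

theorem neg_fat (p : ι) (x : ℝ) : d.neg.Fat p x ↔ d.Fat p (-x) := by
  simp only [Fat, neg_own]

variable {d}

theorem Fat.mem {p : ι} {x : ℝ} (h : d.Fat p x) : p ∈ d.S := by
  obtain ⟨t1, t2, -, h1, -⟩ := h
  exact h1.1

theorem own_le {p q : ι} {x t t' : ℝ} (hp : d.Own p x t) (hq : d.Own q x t')
    (h : d.A p < d.A q) : t ≤ t' := by
  have h1 := hp.2.2.2 q hq.1
  have h2 := hq.2.2.2 p hp.1
  unfold cost at h1 h2
  by_contra h3
  push Not at h3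
  nlinarith [mul_pos (sub_pos.2 h3) (sub_pos.2 h)]

theorem Own.of_between {p : ι} {x t1 t2 t : ℝ} (h1 : d.Own p x t1) (h2 : d.Own p x t2)
    (h : t1 ≤ t) (h' : t ≤ t2) : d.Own p x t := by
  refine ⟨h1.1, h1.2.1.trans h, h'.trans h2.2.2.1, fun q hq => ?_⟩
  have e1 := h1.2.2.2 q hq
  have e2 := h2.2.2.2 q hq
  unfold cost at e1 e2 ⊢
  rcases le_total (d.A p) (d.A q) with h3 | h3
  · nlinarith [mul_nonneg (sub_nonneg.2 h') (sub_nonneg.2 h3)]
  · nlinarith [mul_nonneg (sub_nonneg.2 h) (sub_nonneg.2 h3)]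

/-- A site which is cheapest on a segment to the right of `t`. -/
theorem own_right {x t : ℝ} (h0 : 0 ≤ t) (h1 : t < d.H) :
    ∃ p t', t < t' ∧ d.Own p x t ∧ d.Own p x t' := by
  classical
  obtain ⟨p0, hp0, hmin⟩ := d.S.exists_min_image (fun p => d.cost p x t) d.ne
  set T := d.S.filter (fun p => d.cost p x t ≤ d.cost p0 x t) with hT
  have hTne : T.Nonempty := ⟨p0, by simp [hT, hp0]⟩
  obtain ⟨p, hp, hmax⟩ := T.exists_max_image d.A hTne
  rw [hT, Finset.mem_filter] at hp
  have hown : ∀ q ∈ d.S, d.cost p x t ≤ d.cost q x t := fun q hq => hp.2.trans (hmin q hq)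
  have key : ∀ q ∈ d.S, ∀ᶠ t' in 𝓝[>] t, d.cost p x t' ≤ d.cost q x t' := by
    intro q hq
    rcases (hown q hq).eq_or_lt with h | h
    · have hqT : q ∈ T := by
        rw [hT, Finset.mem_filter]
        exact ⟨hq, by rw [← h]; exact hp.2⟩
      have h2 := hmax q hqT
      filter_upwards [self_mem_nhdsWithin] with t' ht'
      have h3 : t < t' := ht'
      unfold cost at h ⊢
      nlinarith [mul_nonneg (sub_nonneg.2 h3.le) (sub_nonneg.2 h2)]
    · have hc : Continuous fun t' => d.cost q x t' - d.cost p x t' := by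
        unfold cost
        fun_prop
      have h4 : ∀ᶠ t' in 𝓝 t, 0 < d.cost q x t' - d.cost p x t' :=
        hc.continuousAt.eventually (lt_mem_nhds (by linarith))
      filter_upwards [h4.filter_mono nhdsWithin_le_nhds] with t' ht'
      linarith
  have key2 : ∀ᶠ t' in 𝓝[>] t, ∀ q ∈ d.S, d.cost p x t' ≤ d.cost q x t' :=
    (Filter.eventually_all_finset _).2 key
  have key3 : ∀ᶠ t' in 𝓝[>] t, t < t' ∧ t' < d.H := Ioo_mem_nhdsGT h1
  obtain ⟨t', h5, h6, h7⟩ := (key2.and key3).exists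
  exact ⟨p, t', h6, ⟨hp.1, h0, h1.le, hown⟩, ⟨hp.1, h0.trans h6.le, h7.le, h5⟩⟩

/-- A site which is cheapest on a segment to the left of `t`. -/
theorem own_left {x t : ℝ} (h0 : 0 < t) (h1 : t ≤ d.H) :
    ∃ p t', t' < t ∧ d.Own p x t' ∧ d.Own p x t := by
  classical
  obtain ⟨p0, hp0, hmin⟩ := d.S.exists_min_image (fun p => d.cost p x t) d.ne
  set T := d.S.filter (fun p => d.cost p x t ≤ d.cost p0 x t) with hT
  have hTne : T.Nonempty := ⟨p0, by simp [hT, hp0]⟩
  obtain ⟨p, hp, hmax⟩ := T.exists_min_image d.A hTne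
  rw [hT, Finset.mem_filter] at hp
  have hown : ∀ q ∈ d.S, d.cost p x t ≤ d.cost q x t := fun q hq => hp.2.trans (hmin q hq)
  have key : ∀ q ∈ d.S, ∀ᶠ t' in 𝓝[<] t, d.cost p x t' ≤ d.cost q x t' := by
    intro q hq
    rcases (hown q hq).eq_or_lt with h | h
    · have hqT : q ∈ T := by
        rw [hT, Finset.mem_filter]
        exact ⟨hq, by rw [← h]; exact hp.2⟩
      have h2 := hmax q hqT
      filter_upwards [self_mem_nhdsWithin] with t' ht'
      have h3 : t' < t := ht'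
      unfold cost at h ⊢
      nlinarith [mul_nonneg (sub_nonneg.2 h3.le) (sub_nonneg.2 h2)]
    · have hc : Continuous fun t' => d.cost q x t' - d.cost p x t' := by
        unfold cost
        fun_prop
      have h4 : ∀ᶠ t' in 𝓝 t, 0 < d.cost q x t' - d.cost p x t' :=
        hc.continuousAt.eventually (lt_mem_nhds (by linarith))
      filter_upwards [h4.filter_mono nhdsWithin_le_nhds] with t' ht'
      linarith
  have key2 : ∀ᶠ t' in 𝓝[<] t, ∀ q ∈ d.S, d.cost p x t' ≤ d.cost q x t' :=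
    (Filter.eventually_all_finset _).2 key
  have key3 : ∀ᶠ t' in 𝓝[<] t, 0 < t' ∧ t' < t := Ioo_mem_nhdsLT h0
  obtain ⟨t', h5, h6, h7⟩ := (key2.and key3).exists
  exact ⟨p, t', h7, ⟨hp.1, h6.le, h7.le.trans h1, h5⟩, ⟨hp.1, h0.le, h1, hown⟩⟩

theorem Fat.eventually {p : ι} {x : ℝ} (h : d.Fat p x) : ∀ᶠ y in 𝓝 x, d.Fat p y := by
  obtain ⟨t1, t2, h12, h1, h2⟩ := h
  set s1 := (2 * t1 + t2) / 3 with hs1
  set s2 := (t1 + 2 * t2) / 3 with hs2
  have key : ∀ s, t1 < s → s < t2 → ∀ᶠ y in 𝓝 x, d.Own p y s := by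
    intro s hs hs'
    have : ∀ q ∈ d.S, ∀ᶠ y in 𝓝 x, d.cost p y s ≤ d.cost q y s := by
      intro q hq
      rcases eq_or_ne q p with rfl | hne
      · exact Eventually.of_forall fun y => le_rfl
      · have hA : d.A p ≠ d.A q := fun e => hne (d.inj p h1.1 q hq e).symm
        have e1 := h1.2.2.2 q hq
        have e2 := h2.2.2.2 q hq
        have hlt : d.cost p x s < d.cost q x s := by
          unfold cost at e1 e2 ⊢
          rcases lt_or_gt_of_ne hA with h3 | h3
          · nlinarith [mul_pos (sub_pos.2 hs') (sub_pos.2 h3)]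
          · nlinarith [mul_pos (sub_pos.2 hs) (sub_pos.2 h3)]
        have hc : Continuous fun y => d.cost q y s - d.cost p y s := by
          unfold cost
          fun_prop
        have h4 : ∀ᶠ y in 𝓝 x, 0 < d.cost q y s - d.cost p y s :=
          hc.continuousAt.eventually (lt_mem_nhds (by linarith))
        filter_upwards [h4] with y hy
        linarith
    filter_upwards [(Filter.eventually_all_finset _).2 this] with y hy
    exact ⟨h1.1, h1.2.1.trans hs.le, hs'.le.trans h2.2.2.1, hy⟩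
  filter_upwards [key s1 (by linarith) (by linarith), key s2 (by linarith) (by linarith)] with y a b
  exact ⟨s1, s2, by linarith, a, b⟩

theorem Own.convex {p : ι} {x1 x2 t1 t2 a b : ℝ} (h1 : d.Own p x1 t1) (h2 : d.Own p x2 t2)
    (ha : 0 ≤ a) (hb : 0 ≤ b) (hab : a + b = 1) :
    d.Own p (a * x1 + b * x2) (a * t1 + b * t2) := by
  refine ⟨h1.1, ?_, ?_, fun q hq => ?_⟩
  · have := h1.2.1
    have := h2.2.1
    positivity
  · have e1 := mul_le_mul_of_nonneg_left h1.2.2.1 ha
    have e2 := mul_le_mul_of_nonneg_left h2.2.2.1 hb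
    calc a * t1 + b * t2 ≤ a * d.H + b * d.H := add_le_add e1 e2
      _ = d.H := by rw [← add_mul, hab, one_mul]
  · have e1 := mul_le_mul_of_nonneg_left (h1.2.2.2 q hq) ha
    have e2 := mul_le_mul_of_nonneg_left (h2.2.2.2 q hq) hb
    have hb' : b = 1 - a := by linarith
    unfold cost at e1 e2 ⊢
    subst hb'
    nlinarith

theorem Fat.convex {p : ι} {x1 x2 x : ℝ} (h1 : d.Fat p x1) (h2 : d.Fat p x2) (h : x1 ≤ x)
    (h' : x ≤ x2) : d.Fat p x := by
  rcases (h.trans h').eq_or_lt with e | hlt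
  · have : x = x1 := le_antisymm (by rw [e]; exact h') h
    rw [this]
    exact h1
  · obtain ⟨s1, s2, hs, a1, a2⟩ := h1
    obtain ⟨r1, r2, hr, b1, b2⟩ := h2
    set a := (x2 - x) / (x2 - x1) with ha
    set b := (x - x1) / (x2 - x1) with hb
    have hd : 0 < x2 - x1 := sub_pos.2 hlt
    have ha0 : 0 ≤ a := div_nonneg (by linarith) hd.le
    have hb0 : 0 ≤ b := div_nonneg (by linarith) hd.le
    have hab : a + b = 1 := by
      rw [ha, hb]
      field_simp
      ring
    have hx : a * x1 + b * x2 = x := by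
      rw [ha, hb]
      field_simp
      ring
    have c1 := a1.convex b1 ha0 hb0 hab
    have c2 := a2.convex b2 ha0 hb0 hab
    rw [hx] at c1 c2
    refine ⟨_, _, ?_, c1, c2⟩
    rcases ha0.eq_or_lt with h3 | h3
    · have : b = 1 := by linarith
      rw [← h3, this]
      linarith
    · nlinarith [mul_pos h3 (sub_pos.2 hs), mul_nonneg hb0 (sub_pos.2 hr).le]

theorem fat_left (p : ι) (x : ℝ) :
    (∀ᶠ y in 𝓝[<] x, d.Fat p y) ∨ ∀ᶠ y in 𝓝[<] x, ¬ d.Fat p y := by
  by_cases h : ∃ᶠ y in 𝓝[<] x, d.Fat p y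
  · left
    obtain ⟨x1, h1, h1'⟩ := (h.and_eventually self_mem_nhdsWithin).exists
    have hx1 : x1 < x := h1'
    have h2 : ∀ᶠ y in 𝓝[<] x, x1 < y ∧ y < x := Ioo_mem_nhdsLT hx1
    filter_upwards [h2] with y hy
    have h3 : ∀ᶠ z in 𝓝[<] x, y < z ∧ z < x := Ioo_mem_nhdsLT hy.2
    obtain ⟨x2, h4, h5⟩ := (h.and_eventually h3).exists
    exact h1.convex h4 hy.1.le h5.1.le
  · right
    exact not_frequently.1 h

theorem fat_right (p : ι) (x : ℝ) :
    (∀ᶠ y in 𝓝[>] x, d.Fat p y) ∨ ∀ᶠ y in 𝓝[>] x, ¬ d.Fat p y := by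
  by_cases h : ∃ᶠ y in 𝓝[>] x, d.Fat p y
  · left
    obtain ⟨x1, h1, h1'⟩ := (h.and_eventually self_mem_nhdsWithin).exists
    have hx1 : x < x1 := h1'
    have h2 : ∀ᶠ y in 𝓝[>] x, x < y ∧ y < x1 := Ioo_mem_nhdsGT hx1
    filter_upwards [h2] with y hy
    have h3 : ∀ᶠ z in 𝓝[>] x, x < z ∧ z < y := Ioo_mem_nhdsGT hy.1
    obtain ⟨x2, h4, h5⟩ := (h.and_eventually h3).exists
    exact h4.convex h1 h5.2.le hy.2.le
  · right
    exact not_frequently.1 h

/-- A site which is fat just before `x` is cheapest at some point of the line `x`. -/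
theorem own_of_left {p : ι} {x : ℝ} (h : ∀ᶠ y in 𝓝[<] x, d.Fat p y) : ∃ t, d.Own p x t := by
  set C : Set (ℝ × ℝ) := {z | ∀ q ∈ d.S, d.cost p z.1 z.2 ≤ d.cost q z.1 z.2} with hC
  have hCc : IsClosed C := by
    have : C = ⋂ q ∈ d.S, {z : ℝ × ℝ | d.cost p z.1 z.2 ≤ d.cost q z.1 z.2} := by
      ext z
      simp [hC]
    rw [this]
    refine isClosed_biInter fun q _ => isClosed_le ?_ ?_ <;> unfold cost <;> fun_prop
  have hK : IsCompact (C ∩ (Set.Icc (x - 1) x ×ˢ Set.Icc 0 d.H)) :=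
    (isCompact_Icc.prod isCompact_Icc).inter_left hCc
  have hI : IsClosed (Prod.fst '' (C ∩ (Set.Icc (x - 1) x ×ˢ Set.Icc 0 d.H))) :=
    (hK.image continuous_fst).isClosed
  have hp : p ∈ d.S := by
    obtain ⟨y, hy⟩ := h.exists
    exact hy.mem
  have hx : x ∈ closure (Prod.fst '' (C ∩ (Set.Icc (x - 1) x ×ˢ Set.Icc 0 d.H))) := by
    rw [mem_closure_iff_frequently]
    have h2 : ∀ᶠ y in 𝓝[<] x, y ∈ Prod.fst '' (C ∩ (Set.Icc (x - 1) x ×ˢ Set.Icc 0 d.H)) := by
      have h3 : ∀ᶠ y in 𝓝[<] x, x - 1 < y ∧ y < x := Ioo_mem_nhdsLT (by linarith)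
      filter_upwards [h, h3] with y hy hy'
      obtain ⟨t1, t2, -, e1, -⟩ := hy
      exact ⟨(y, t1), ⟨e1.2.2.2, ⟨hy'.1.le, hy'.2.le⟩, e1.2.1, e1.2.2.1⟩, rfl⟩
    exact (h2.frequently).filter_mono nhdsWithin_le_nhds
  rw [hI.closure_eq] at hx
  obtain ⟨z, ⟨hz1, hz2⟩, hz3⟩ := hx
  rw [← hz3]
  exact ⟨z.2, hp, hz2.2.1, hz2.2.2, hz1⟩

/-! ### Ties -/

/-- Three sites which are fat just before `x` and tie at `(x, t)`. -/
theorem orient_left {a q c : ι} {x t : ℝ} (ha : d.Own a x t) (hq : d.Own q x t) (hc : d.Own c x t)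
    (haq : d.A a < d.A q) (hqc : d.A q < d.A c) (hf : ∀ᶠ y in 𝓝[<] x, d.Fat q y) :
    d.B q * (d.A c - d.A a) < d.B a * (d.A c - d.A q) + d.B c * (d.A q - d.A a) := by
  obtain ⟨y, hy, hyx⟩ := (hf.and self_mem_nhdsWithin).exists
  have hyx' : y < x := hyx
  obtain ⟨t1, t2, h12, h1, h2⟩ := hy
  have e1 := ha.2.2.2 q hq.1
  have e2 := hq.2.2.2 a ha.1
  have e3 := hc.2.2.2 q hq.1
  have e4 := hq.2.2.2 c hc.1
  have f1 := h1.2.2.2 a ha.1
  have f2 := h1.2.2.2 c hc.1
  have f3 := h2.2.2.2 a ha.1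
  have f4 := h2.2.2.2 c hc.1
  unfold cost at e1 e2 e3 e4 f1 f2 f3 f4
  have ea : d.K a - d.K q = x * (d.B a - d.B q) + t * (d.A a - d.A q) := by linarith
  have ec : d.K c - d.K q = x * (d.B c - d.B q) + t * (d.A c - d.A q) := by linarith
  have g1 : (x - y) * (d.B q - d.B a) ≤ (t1 - t) * (d.A q - d.A a) := by linarith
  have g2 : (x - y) * (d.B q - d.B c) ≤ (t1 - t) * (d.A q - d.A c) := by linarith
  have g3 : (x - y) * (d.B q - d.B a) ≤ (t2 - t) * (d.A q - d.A a) := by linarith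
  have g4 : (x - y) * (d.B q - d.B c) ≤ (t2 - t) * (d.A q - d.A c) := by linarith
  have p1 : 0 < d.A q - d.A a := sub_pos.2 haq
  have p2 : 0 < d.A c - d.A q := sub_pos.2 hqc
  have p3 : 0 < x - y := sub_pos.2 hyx'
  -- combine `g1` (for `a`, at `t1`) and `g4` (for `c`, at `t2`)
  have k1 := mul_le_mul_of_nonneg_right g1 p2.le
  have k4 := mul_le_mul_of_nonneg_right g4 p1.le
  have k5 : (x - y) * (d.B q * (d.A c - d.A a) - d.B a * (d.A c - d.A q) -
      d.B c * (d.A q - d.A a)) ≤ (t1 - t2) * ((d.A q - d.A a) * (d.A c - d.A q)) := by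
    nlinarith
  have k6 : (t1 - t2) * ((d.A q - d.A a) * (d.A c - d.A q)) < 0 :=
    mul_neg_of_neg_of_pos (by linarith) (mul_pos p1 p2)
  have k7 : d.B q * (d.A c - d.A a) - d.B a * (d.A c - d.A q) -
      d.B c * (d.A q - d.A a) < 0 := by
    by_contra h
    push Not at h
    nlinarith [mul_nonneg p3.le h]
  linarith

/-- Two sites which tie at the bottom; the lower one is fat just before `x`. -/
theorem orient_bot {q c : ι} {x : ℝ} (hq : d.Own q x 0) (hc : d.Own c x 0)
    (hqc : d.A q < d.A c) (hf : ∀ᶠ y in 𝓝[<] x, d.Fat q y) : d.B q < d.B c := by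
  obtain ⟨y, hy, hyx⟩ := (hf.and self_mem_nhdsWithin).exists
  have hyx' : y < x := hyx
  obtain ⟨t1, t2, h12, h1, h2⟩ := hy
  have e3 := hc.2.2.2 q hq.1
  have e4 := hq.2.2.2 c hc.1
  have f4 := h2.2.2.2 c hc.1
  have ht2 : 0 < t2 := h1.2.1.trans_lt h12
  unfold cost at e3 e4 f4
  have p2 : 0 < d.A c - d.A q := sub_pos.2 hqc
  have p3 : 0 < x - y := sub_pos.2 hyx'
  by_contra h
  push Not at h
  nlinarith [mul_nonneg p3.le (sub_nonneg.2 h), mul_pos ht2 p2]

/-- Two sites which tie at the top; the upper one is fat just before `x`. -/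
theorem orient_top {a q : ι} {x : ℝ} (ha : d.Own a x d.H) (hq : d.Own q x d.H)
    (haq : d.A a < d.A q) (hf : ∀ᶠ y in 𝓝[<] x, d.Fat q y) : d.B q < d.B a := by
  obtain ⟨y, hy, hyx⟩ := (hf.and self_mem_nhdsWithin).exists
  have hyx' : y < x := hyx
  obtain ⟨t1, t2, h12, h1, h2⟩ := hy
  have e3 := ha.2.2.2 q hq.1
  have e4 := hq.2.2.2 a ha.1
  have f4 := h1.2.2.2 a ha.1
  have ht2 : 0 < d.H - t1 := by linarith [h2.2.2.1]
  unfold cost at e3 e4 f4
  have p2 : 0 < d.A q - d.A a := sub_pos.2 haq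
  have p3 : 0 < x - y := sub_pos.2 hyx'
  by_contra h
  push Not at h
  nlinarith [mul_nonneg p3.le (sub_nonneg.2 h), mul_pos ht2 p2]

/-- The flip: `q` is deleted from the list `L1 ++ q :: L2`. -/
def Flip (d : Data ι) (x : ℝ) (L1 : List ι) (q : ι) (L2 : List ι) : Prop :=
  (∃ L1' a L2' c t, L1 = L1' ++ [a] ∧ L2 = c :: L2' ∧ d.Own a x t ∧ d.Own q x t ∧ d.Own c x t ∧
    d.A a < d.A q ∧ d.A q < d.A c ∧
    d.B q * (d.A c - d.A a) < d.B a * (d.A c - d.A q) + d.B c * (d.A q - d.A a)) ∨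
  (∃ c L2', L1 = [] ∧ L2 = c :: L2' ∧ d.Own q x 0 ∧ d.Own c x 0 ∧ d.A q < d.A c ∧
    d.B q < d.B c) ∨
  (∃ L1' a, L1 = L1' ++ [a] ∧ L2 = [] ∧ d.Own a x d.H ∧ d.Own q x d.H ∧ d.A a < d.A q ∧
    d.B q < d.B a)

theorem flip_left {x : ℝ} {L1 L2 : List ι} {q : ι}
    (hsort : (L1 ++ q :: L2).Pairwise (fun a b => d.A a < d.A b))
    (hmem : ∀ p ∈ L1 ++ q :: L2, ∀ᶠ y in 𝓝[<] x, d.Fat p y)
    (hfat : ∀ p, d.Fat p x → p ∈ L1 ++ q :: L2) (hq : ¬ d.Fat q x) : d.Flip x L1 q L2 := by
  obtain ⟨t, ht⟩ := own_of_left (hmem q (by simp))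
  have huniq : ∀ t', d.Own q x t' → t' = t := by
    intro t' ht'
    rcases lt_trichotomy t' t with h | h | h
    · exact absurd ⟨t', t, h, ht', ht⟩ hq
    · exact h
    · exact absurd ⟨t, t', h, ht, ht'⟩ hq
  rw [List.pairwise_append] at hsort
  obtain ⟨hs1, hs2, hs3⟩ := hsort
  rw [List.pairwise_cons] at hs2
  obtain ⟨hs4, hs5⟩ := hs2
  -- below
  have hbelow : 0 < t → ∃ p t', t' < t ∧ d.Own p x t' ∧ d.Own p x t ∧ p ∈ L1 := by
    intro h0
    obtain ⟨p, t', h1, h2, h3⟩ := own_left (d := d) (x := x) h0 ht.2.2.1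
    have hfp : d.Fat p x := ⟨t', t, h1, h2, h3⟩
    have hpm := hfat p hfp
    refine ⟨p, t', h1, h2, h3, ?_⟩
    rw [List.mem_append, List.mem_cons] at hpm
    rcases hpm with h | h | h
    · exact h
    · rw [h] at hfp
      exact absurd hfp hq
    · have := own_le ht h2 (hs4 p h)
      linarith
  have habove : t < d.H → ∃ p t', t < t' ∧ d.Own p x t' ∧ d.Own p x t ∧ p ∈ L2 := by
    intro h0
    obtain ⟨p, t', h1, h2, h3⟩ := own_right (d := d) (x := x) ht.2.1 h0
    have hfp : d.Fat p x := ⟨t, t', h1, h2, h3⟩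
    have hpm := hfat p hfp
    refine ⟨p, t', h1, h3, h2, ?_⟩
    rw [List.mem_append, List.mem_cons] at hpm
    rcases hpm with h | h | h
    · have := own_le h3 ht (hs3 p h q (by simp))
      linarith
    · rw [h] at hfp
      exact absurd hfp hq
    · exact h
  -- the last element of `L1` owns `t`
  have hlast : ∀ L1' a, L1 = L1' ++ [a] → d.Own a x t := by
    intro L1' a hL
    have haL : a ∈ L1 := by rw [hL]; simp
    obtain ⟨ta, hta⟩ := own_of_left (hmem a (List.mem_append_left _ haL))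
    have hle := own_le hta ht (hs3 a haL q (by simp))
    rcases hle.eq_or_lt with h | h
    · rw [← h]
      exact hta
    · have ht0 : 0 < t := hta.2.1.trans_lt h
      obtain ⟨p, t', h1, h2, h3, h4⟩ := hbelow ht0
      have h5 : p ∈ L1' ∨ p = a := by
        rw [hL, List.mem_append, List.mem_singleton] at h4
        exact h4
      rcases h5 with h5 | h5
      · have h6 : d.A p < d.A a := by
          rw [hL, List.pairwise_append] at hs1
          exact hs1.2.2 p h5 a (by simp)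
        have h7 := own_le h3 hta h6
        linarith
      · rw [← h5]
        exact h3
  have hfirst : ∀ L2' c, L2 = c :: L2' → d.Own c x t := by
    intro L2' c hL
    have hcL : c ∈ L2 := by rw [hL]; simp
    obtain ⟨tc, htc⟩ := own_of_left
      (hmem c (List.mem_append_right _ (List.mem_cons_of_mem _ hcL)))
    have hle := own_le ht htc (hs4 c hcL)
    rcases hle.eq_or_lt with h | h
    · rw [h]
      exact htc
    · have ht0 : t < d.H := h.trans_le htc.2.2.1
      obtain ⟨p, t', h1, h2, h3, h4⟩ := habove ht0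
      rw [hL, List.mem_cons] at h4
      rcases h4 with h5 | h5
      · rw [← h5]
        exact h3
      · have h6 : d.A c < d.A p := by
          rw [hL, List.pairwise_cons] at hs5
          exact hs5.1 p h5
        have h7 := own_le htc h3 h6
        linarith
  have hfq := hmem q (by simp)
  rcases List.eq_nil_or_concat L1 with h1 | ⟨L1', a, h1⟩
  · have ht0 : t = 0 := by
      rcases ht.2.1.eq_or_lt with h | h
      · exact h.symm
      · obtain ⟨p, _, _, _, _, h4⟩ := hbelow h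
        rw [h1] at h4
        exact absurd h4 (by simp)
    cases h2 : L2 with
    | nil =>
      exfalso
      have : 0 < d.H := d.hH
      obtain ⟨p, _, _, _, _, h4⟩ := habove (by rw [ht0]; exact this)
      rw [h2] at h4
      exact absurd h4 (by simp)
    | cons c L2' =>
      right
      left
      have hc := hfirst L2' c h2
      have hA := hs4 c (by rw [h2]; simp)
      rw [ht0] at hc ht
      exact ⟨c, L2', h1, rfl, ht, hc, hA, orient_bot ht hc hA hfq⟩
  · rw [List.concat_eq_append] at h1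
    have ha := hlast L1' a h1
    have hA := hs3 a (by rw [h1]; simp) q (by simp)
    cases h2 : L2 with
    | nil =>
      right
      right
      have htH : t = d.H := by
        rcases ht.2.2.1.eq_or_lt with h | h
        · exact h
        · obtain ⟨p, _, _, _, _, h4⟩ := habove h
          rw [h2] at h4
          exact absurd h4 (by simp)
      rw [htH] at ha ht
      exact ⟨L1', a, h1, rfl, ha, ht, hA, orient_top ha ht hA hfq⟩
    | cons c L2' =>
      left
      have hc := hfirst L2' c h2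
      have hA2 := hs4 c (by rw [h2]; simp)
      exact ⟨L1', a, L2', c, t, h1, rfl, ha, ht, hc, hA, hA2, orient_left ha ht hc hA hA2 hfq⟩

end Data

end Pool.Agent.Strip051.Sweep
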