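import Pool.Agent.StripNear.Basic

/-! # Nearest points along a vertical line

`Vis X p m z`: the point `p` of `X` is a nearest point of `X` to `(m, z)`.  Differences of squared
distances are affine in `(m, z)`, so the heights of the nearest points increase along a vertical
line. -/

namespace Pool.Agent.Strip051.Sweep

open Pool.Agent.StripNear

/-- Squared distance of `p` from the point `(m, z)`. -/
def dq (p : Pt) (m z : ℝ) : ℝ := (m - p.1) ^ 2 + (z - p.2) ^ 2

/-- `p` is a nearest point of `X` to `(m, z)`. -/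
def Vis (X : Finset Pt) (p : Pt) (m z : ℝ) : Prop := p ∈ X ∧ ∀ q ∈ X, dq p m z ≤ dq q m z

/-- `p` is a nearest point of some point of height in `[0, H]` of the line `x = m`. -/
def Seen (X : Finset Pt) (H : ℝ) (p : Pt) (m : ℝ) : Prop := ∃ z, 0 ≤ z ∧ z ≤ H ∧ Vis X p m z

/-- Lexicographic order: first the height, then the abscissa. -/
def Lt (p q : Pt) : Prop := p.2 < q.2 ∨ (p.2 = q.2 ∧ p.1 < q.1)

theorem Lt.le {p q : Pt} (h : Lt p q) : p.2 ≤ q.2 := by
  rcases h with h | h
  · exact h.le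
  · exact h.1.le

theorem Lt.ne {p q : Pt} (h : Lt p q) : p ≠ q := by
  rintro rfl
  rcases h with h | h
  · exact lt_irrefl _ h
  · exact lt_irrefl _ h.2

theorem Lt.trans {p q r : Pt} (h : Lt p q) (h' : Lt q r) : Lt p r := by
  rcases h with h | ⟨h1, h2⟩
  · exact Or.inl (h.trans_le h'.le)
  · rcases h' with h' | ⟨h3, h4⟩
    · exact Or.inl (h1.trans_lt h')
    · exact Or.inr ⟨h1.trans h3, h2.trans h4⟩

theorem Lt.asymm {p q : Pt} (h : Lt p q) : ¬ Lt q p := fun h' => (h.trans h').ne rfl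

theorem lt_trichotomy' {p q : Pt} (h : p ≠ q) : Lt p q ∨ Lt q p := by
  rcases lt_trichotomy p.2 q.2 with h1 | h1 | h1
  · exact Or.inl (Or.inl h1)
  · rcases lt_trichotomy p.1 q.1 with h2 | h2 | h2
    · exact Or.inl (Or.inr ⟨h1, h2⟩)
    · exact absurd (Prod.ext h2 h1) h
    · exact Or.inr (Or.inr ⟨h1.symm, h2⟩)
  · exact Or.inr (Or.inl h1)

/-- Monotonicity of the difference of squared distances along the line. -/
theorem dq_mono {p q : Pt} {m z z' : ℝ} (h : p.2 ≤ q.2) (hz : z ≤ z') :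
    dq p m z + dq q m z' ≤ dq p m z' + dq q m z := by
  unfold dq
  nlinarith [mul_nonneg (sub_nonneg.2 h) (sub_nonneg.2 hz)]

theorem vis_up {X : Finset Pt} {p a : Pt} {m z z' : ℝ} (h : p.2 ≤ a.2) (ha : Vis X a m z)
    (hp : Vis X p m z') (hz : z ≤ z') : Vis X a m z' := by
  refine ⟨ha.1, fun q hq => ?_⟩
  have h1 := dq_mono (m := m) h hz
  have h2 := ha.2 p hp.1
  have h3 := hp.2 q hq
  linarith

theorem vis_down {X : Finset Pt} {p a : Pt} {m z z' : ℝ} (h : a.2 ≤ p.2) (ha : Vis X a m z)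
    (hp : Vis X p m z') (hz : z' ≤ z) : Vis X a m z' := by
  refine ⟨ha.1, fun q hq => ?_⟩
  have h1 := dq_mono (m := m) h hz
  have h2 := ha.2 p hp.1
  have h3 := hp.2 q hq
  linarith

theorem Vis.dq_eq {X : Finset Pt} {p q : Pt} {m z : ℝ} (h : Vis X p m z) (h' : Vis X q m z) :
    dq p m z = dq q m z :=
  le_antisymm (h.2 q h'.1) (h'.2 p h.1)

theorem Vis.of_eq {X : Finset Pt} {p q : Pt} {m z : ℝ} (h : Vis X p m z) (hq : q ∈ X)
    (e : dq q m z = dq p m z) : Vis X q m z :=
  ⟨hq, fun r hr => e ▸ h.2 r hr⟩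

/-- A list of points describing the nearest points along the segment `{m} × [0, H]`. -/
structure Valid (X : Finset Pt) (H m : ℝ) (Q : List Pt) : Prop where
  sorted : Q.Pairwise Lt
  seen : ∀ p ∈ Q, Seen X H p m
  cover : ∀ z, 0 ≤ z → z ≤ H → ∃ p ∈ Q, Vis X p m z

/-- Neighbours in a valid list have a common point of the line. -/
theorem adj {X : Finset Pt} {H m : ℝ} {l r : List Pt} {a c : Pt}
    (h : Valid X H m (l ++ a :: c :: r)) :
    ∃ z, 0 ≤ z ∧ z ≤ H ∧ Vis X a m z ∧ Vis X c m z := by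
  obtain ⟨za, ha0, haH, ha⟩ := h.seen a (by simp)
  obtain ⟨zc, hc0, hcH, hc⟩ := h.seen c (by simp)
  have hs := h.sorted
  rw [List.pairwise_append] at hs
  obtain ⟨-, hs2, hs3⟩ := hs
  rw [List.pairwise_cons] at hs2
  obtain ⟨hs4, hs5⟩ := hs2
  rw [List.pairwise_cons] at hs5
  have hac : Lt a c := hs4 c (by simp)
  have hla : ∀ p ∈ l, p.2 ≤ a.2 := fun p hp => (hs3 p hp a (by simp)).le
  have hrc : ∀ p ∈ r, c.2 ≤ p.2 := fun p hp => (hs5.1 p hp).le
  rcases hac with hlt | ⟨heq, -⟩
  · obtain ⟨z, hz⟩ : ∃ z, dq a m z = dq c m z := by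
      have h1 : 2 * (c.2 - a.2) ≠ 0 := by
        have : 0 < c.2 - a.2 := by linarith
        positivity
      obtain ⟨z, hz⟩ : ∃ z, z * (2 * (c.2 - a.2)) =
          (m - c.1) ^ 2 - (m - a.1) ^ 2 + c.2 ^ 2 - a.2 ^ 2 :=
        ⟨_, div_mul_cancel₀ _ h1⟩
      refine ⟨z, ?_⟩
      unfold dq
      linarith
    have h1 : za ≤ z := by
      by_contra hcon
      push Not at hcon
      have e1 := ha.2 c hc.1
      unfold dq at e1 hz
      nlinarith [mul_pos (sub_pos.2 hlt) (sub_pos.2 hcon)]
    have h2 : z ≤ zc := by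
      by_contra hcon
      push Not at hcon
      have e1 := hc.2 a ha.1
      unfold dq at e1 hz
      nlinarith [mul_pos (sub_pos.2 hlt) (sub_pos.2 hcon)]
    obtain ⟨p, hp, hpv⟩ := h.cover z (ha0.trans h1) (h2.trans hcH)
    refine ⟨z, ha0.trans h1, h2.trans hcH, ?_⟩
    rw [List.mem_append, List.mem_cons, List.mem_cons] at hp
    rcases hp with hp | rfl | rfl | hp
    · have := vis_up (hla p hp) ha hpv h1
      exact ⟨this, this.of_eq hc.1 hz.symm⟩
    · exact ⟨hpv, hpv.of_eq hc.1 hz.symm⟩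
    · exact ⟨hpv.of_eq ha.1 hz, hpv⟩
    · have := vis_down (hrc p hp) hc hpv h2
      exact ⟨this.of_eq ha.1 hz, this⟩
  · refine ⟨za, ha0, haH, ha, ha.of_eq hc.1 ?_⟩
    have e1 := ha.2 c hc.1
    have e2 := hc.2 a ha.1
    unfold dq at *
    rw [heq] at *
    linarith

/-- A seen point between two neighbours of a valid list. -/
theorem triple {X : Finset Pt} {H m : ℝ} {l r : List Pt} {a c q : Pt}
    (h : Valid X H m (l ++ a :: c :: r)) (hq : Seen X H q m) (haq : Lt a q) (hqc : Lt q c) :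
    ∃ z, 0 ≤ z ∧ z ≤ H ∧ Vis X a m z ∧ Vis X q m z ∧ Vis X c m z := by
  obtain ⟨z, h0, hH, ha, hc⟩ := adj h
  obtain ⟨zq, -, -, hqv⟩ := hq
  refine ⟨z, h0, hH, ha, ?_, hc⟩
  rcases le_total zq z with h1 | h1
  · exact vis_up haq.le hqv ha h1
  · exact vis_down hqc.le hqv hc h1

/-- A seen point below a valid list. -/
theorem bottom {X : Finset Pt} {H m : ℝ} {r : List Pt} {a q : Pt} (hH : 0 ≤ H)
    (h : Valid X H m (a :: r)) (hq : Seen X H q m) (hqa : Lt q a) :
    Vis X a m 0 ∧ Vis X q m 0 := by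
  obtain ⟨za, ha0, -, ha⟩ := h.seen a (by simp)
  obtain ⟨zq, hq0, -, hqv⟩ := hq
  have hs := h.sorted
  rw [List.pairwise_cons] at hs
  obtain ⟨p, hp, hpv⟩ := h.cover 0 le_rfl hH
  have h1 : Vis X a m 0 := by
    rw [List.mem_cons] at hp
    rcases hp with rfl | hp
    · exact hpv
    · exact vis_down (hs.1 p hp).le ha hpv ha0
  exact ⟨h1, vis_down hqa.le hqv h1 hq0⟩

/-- A seen point above a valid list. -/
theorem top {X : Finset Pt} {H m : ℝ} {l : List Pt} {a q : Pt} (hH : 0 ≤ H)
    (h : Valid X H m (l ++ [a])) (hq : Seen X H q m) (haq : Lt a q) :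
    Vis X a m H ∧ Vis X q m H := by
  obtain ⟨za, -, haH, ha⟩ := h.seen a (by simp)
  obtain ⟨zq, -, hqH, hqv⟩ := hq
  have hs := h.sorted
  rw [List.pairwise_append] at hs
  obtain ⟨p, hp, hpv⟩ := h.cover H hH le_rfl
  have h1 : Vis X a m H := by
    rw [List.mem_append, List.mem_singleton] at hp
    rcases hp with hp | rfl
    · exact vis_up (hs.2.2 p hp a (by simp)).le ha hpv haH
    · exact hpv
  exact ⟨h1, vis_up haq.le hqv h1 hqH⟩

/-- Splitting a sorted list at a new point. -/
theorem exists_split {Q : List Pt} (h : Q.Pairwise Lt) {q : Pt} (hq : q ∉ Q) :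
    ∃ l r, Q = l ++ r ∧ (∀ p ∈ l, Lt p q) ∧ ∀ p ∈ r, Lt q p := by
  induction Q with
  | nil => exact ⟨[], [], rfl, by simp, by simp⟩
  | cons a Q ih =>
    rw [List.pairwise_cons] at h
    rw [List.mem_cons, not_or] at hq
    rcases lt_trichotomy' hq.1 with h1 | h1
    · refine ⟨[], a :: Q, rfl, by simp, fun p hp => ?_⟩
      rw [List.mem_cons] at hp
      rcases hp with rfl | hp
      · exact h1
      · exact h1.trans (h.1 p hp)
    · obtain ⟨l, r, e, h2, h3⟩ := ih h.2 hq.2
      refine ⟨a :: l, r, by rw [e]; rfl, fun p hp => ?_, h3⟩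
      rw [List.mem_cons] at hp
      rcases hp with rfl | hp
      · exact h1
      · exact h2 p hp

/-- Inserting a point into a sorted list. -/
theorem pairwise_insert {l r : List Pt} {q : Pt} (h : (l ++ r).Pairwise Lt)
    (h1 : ∀ p ∈ l, Lt p q) (h2 : ∀ p ∈ r, Lt q p) : (l ++ q :: r).Pairwise Lt := by
  rw [List.pairwise_append] at h ⊢
  refine ⟨h.1, ?_, fun a ha b hb => ?_⟩
  · rw [List.pairwise_cons]
    exact ⟨h2, h.2.1⟩
  · rw [List.mem_cons] at hb
    rcases hb with rfl | hb
    · exact h1 a ha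
    · exact h.2.2 a ha b hb

/-- Every finite set of points can be sorted. -/
theorem exists_sorted (S : Finset Pt) : ∃ Q : List Pt, Q.Pairwise Lt ∧ ∀ p, p ∈ Q ↔ p ∈ S := by
  classical
  induction S using Finset.induction_on with
  | empty => exact ⟨[], List.Pairwise.nil, by simp⟩
  | insert q S hq ih =>
    obtain ⟨Q, h1, h2⟩ := ih
    obtain ⟨l, r, e, h3, h4⟩ := exists_split h1 (q := q) (fun h => hq ((h2 q).1 h))
    subst e
    refine ⟨l ++ q :: r, pairwise_insert h1 h3 h4, fun p => ?_⟩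
    rw [Finset.mem_insert, ← h2 p]
    simp only [List.mem_append, List.mem_cons]
    tauto

/-- Two sorted lists with the same members are equal. -/
theorem sorted_unique {Q Q' : List Pt} (h : Q.Pairwise Lt) (h' : Q'.Pairwise Lt)
    (e : ∀ p, p ∈ Q ↔ p ∈ Q') : Q = Q' := by
  induction Q generalizing Q' with
  | nil =>
    cases Q' with
    | nil => rfl
    | cons a r => exact absurd ((e a).2 (by simp)) (by simp)
  | cons a Q ih =>
    cases Q' with
    | nil => exact absurd ((e a).1 (by simp)) (by simp)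
    | cons b r =>
      rw [List.pairwise_cons] at h h'
      have hab : a = b := by
        by_contra hne
        have h1 : a ∈ r := by
          have := (e a).1 (by simp)
          rw [List.mem_cons] at this
          tauto
        have h2 : b ∈ Q := by
          have := (e b).2 (by simp)
          rw [List.mem_cons] at this
          rcases this with h3 | h3
          · exact absurd h3.symm hne
          · exact h3
        exact (h.1 b h2).asymm (h'.1 a h1)
      subst hab
      congr 1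
      refine ih h.2 h'.2 fun p => ?_
      have h1 := e p
      rw [List.mem_cons, List.mem_cons] at h1
      constructor
      · intro hp
        rcases h1.1 (Or.inr hp) with h2 | h2
        · exact absurd h2.symm (h.1 p hp).ne
        · exact h2
      · intro hp
        rcases h1.2 (Or.inr hp) with h2 | h2
        · exact absurd h2.symm (h'.1 p hp).ne
        · exact h2

end Pool.Agent.Strip051.Sweep
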