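import Pool.Agent.Strip051.Sweep.Future

/-! # The sweep: from the local certificate to the count -/

namespace Pool.Agent.Strip051.Sweep

open Filter Topology Pool.Agent.StripNear

open Classical in
/-- The number of points counted at time `m`: the points left of the line which do not belong to
the list, and one half for the points of the list. -/
noncomputable def cnt (X : Finset Pt) (m : ℝ) (Q : List Pt) : ℝ :=
  ((X.filter fun q => q ∉ Q ∧ q.1 < m).card : ℝ) + (Q.length : ℝ) / 2

theorem valid_of_superset {X : Finset Pt} {H m : ℝ} {V Q : List Pt} (hV : Valid X H m V)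
    (hs : Q.Pairwise Lt) (hseen : ∀ p ∈ Q, Seen X H p m) (hsub : ∀ p ∈ V, p ∈ Q) :
    Valid X H m Q := by
  refine ⟨hs, hseen, fun z h0 hH => ?_⟩
  obtain ⟨p, hp, hv⟩ := hV.cover z h0 hH
  exact ⟨p, hsub p hp, hv⟩

theorem insert_all {X : Finset Pt} {H m : ℝ} {F : Pt → Pt → ℝ} {B T : Pt → ℝ}
    (hc : Cells H F B T) (hX : Ctx X H m) {Q : List Pt} (h : Valid X H m Q) (A : Finset Pt)
    (hA : ∀ q ∈ A, Seen X H q m ∧ (q ∉ Q → m < q.1)) :
    ∃ Q', Valid X H m Q' ∧ (∀ p, p ∈ Q' ↔ p ∈ Q ∨ p ∈ A) ∧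
      phi F B T Q - cnt X m Q ≤ phi F B T Q' - cnt X m Q' := by
  classical
  induction A using Finset.induction_on with
  | empty => exact ⟨Q, h, by simp, le_rfl⟩
  | insert q A hq ih =>
    obtain ⟨Q', h1, h2, h3⟩ := ih fun p hp => hA p (Finset.mem_insert_of_mem hp)
    obtain ⟨hqs, hqm⟩ := hA q (Finset.mem_insert_self q A)
    by_cases hqQ : q ∈ Q'
    · refine ⟨Q', h1, fun p => ?_, h3⟩
      rw [h2, Finset.mem_insert]
      constructor
      · tauto
      · rintro (hp | rfl | hp)
        · exact Or.inl hp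
        · exact (h2 p).1 hqQ
        · exact Or.inr hp
    · have hm : m < q.1 := hqm fun hh => hqQ ((h2 q).2 (Or.inl hh))
      obtain ⟨l, r, rfl, hl, hr⟩ := exists_split h1.sorted hqQ
      have hmem : ∀ p, p ∈ l ++ q :: r ↔ p = q ∨ p ∈ l ++ r := by
        intro p
        simp only [List.mem_append, List.mem_cons]
        tauto
      have hval : Valid X H m (l ++ q :: r) := by
        refine valid_of_superset h1 (pairwise_insert h1.sorted hl hr) (fun p hp => ?_)
          (fun p hp => (hmem p).2 (Or.inr hp))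
        rcases (hmem p).1 hp with rfl | hp
        · exact hqs
        · exact h1.seen p hp
      refine ⟨l ++ q :: r, hval, fun p => ?_, h3.trans ?_⟩
      · rw [hmem, h2, Finset.mem_insert]
        tauto
      · have hg := gain_ins hc hX h1 hl hr hqs hm
        have e1 : (X.filter fun p => p ∉ l ++ q :: r ∧ p.1 < m) =
            X.filter fun p => p ∉ l ++ r ∧ p.1 < m := by
          apply Finset.filter_congr
          intro p _
          rw [hmem]
          constructor
          · rintro ⟨h4, h5⟩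
            exact ⟨fun h6 => h4 (Or.inr h6), h5⟩
          · rintro ⟨h4, h5⟩
            refine ⟨?_, h5⟩
            rintro (rfl | h6)
            · exact absurd h5 (not_lt.2 hm.le)
            · exact h4 h6
        have e2 : ((l ++ q :: r).length : ℝ) = (l ++ r).length + 1 := by
          simp only [List.length_append, List.length_cons]
          push_cast
          ring
        unfold cnt
        rw [e1, e2]
        linarith

theorem remove_all {X : Finset Pt} {H m : ℝ} {F : Pt → Pt → ℝ} {B T : Pt → ℝ}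
    (hc : Cells H F B T) (hX : Ctx X H m) {V Q : List Pt} (hV : Valid X H m V)
    (h : Valid X H m Q) (hVQ : ∀ p ∈ V, p ∈ Q) (R : Finset Pt)
    (hR : ∀ b ∈ R, b ∉ V ∧ b.1 < m) :
    ∃ Q', Valid X H m Q' ∧ (∀ p, p ∈ Q' ↔ p ∈ Q ∧ p ∉ R) ∧
      phi F B T Q - cnt X m Q ≤ phi F B T Q' - cnt X m Q' := by
  classical
  induction R using Finset.induction_on with
  | empty => exact ⟨Q, h, by simp, le_rfl⟩
  | insert b R hb ih =>
    obtain ⟨Q', h1, h2, h3⟩ := ih fun p hp => hR p (Finset.mem_insert_of_mem hp)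
    obtain ⟨hbV, hbm⟩ := hR b (Finset.mem_insert_self b R)
    by_cases hbQ : b ∈ Q'
    · obtain ⟨l, r, rfl⟩ := List.append_of_mem hbQ
      have hs := h1.sorted
      rw [List.pairwise_append, List.pairwise_cons] at hs
      obtain ⟨hs1, ⟨hs2, hs3⟩, hs4⟩ := hs
      have hl : ∀ p ∈ l, Lt p b := fun p hp => hs4 p hp b (by simp)
      have hr : ∀ p ∈ r, Lt b p := hs2
      have hbn : b ∉ l ++ r := by
        rw [List.mem_append]
        rintro (h4 | h4)
        · exact (hl b h4).ne rfl
        · exact (hr b h4).ne rfl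
      have hmem : ∀ p, p ∈ l ++ b :: r ↔ p = b ∨ p ∈ l ++ r := by
        intro p
        simp only [List.mem_append, List.mem_cons]
        tauto
      have hsort : (l ++ r).Pairwise Lt := by
        rw [List.pairwise_append]
        exact ⟨hs1, hs3, fun a ha c hc => hs4 a ha c (List.mem_cons_of_mem _ hc)⟩
      have hval : Valid X H m (l ++ r) := by
        refine valid_of_superset hV hsort (fun p hp => h1.seen p ((hmem p).2 (Or.inr hp)))
          (fun p hp => ?_)
        have h4 : p ∈ l ++ b :: r := by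
          rw [h2]
          refine ⟨hVQ p hp, fun h5 => ?_⟩
          exact (hR p (Finset.mem_insert_of_mem h5)).1 hp
        rcases (hmem p).1 h4 with rfl | h4
        · exact absurd hp hbV
        · exact h4
      have hbs := h1.seen b hbQ
      have hbX : b ∈ X := by
        obtain ⟨z, -, -, hv⟩ := hbs
        exact hv.1
      refine ⟨l ++ r, hval, fun p => ?_, h3.trans ?_⟩
      · have h4 := h2 p
        rw [hmem] at h4
        rw [Finset.mem_insert, not_or]
        constructor
        · intro hp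
          have h5 := h4.1 (Or.inr hp)
          exact ⟨h5.1, fun h6 => hbn (h6 ▸ hp), h5.2⟩
        · rintro ⟨h5, h6, h7⟩
          rcases h4.2 ⟨h5, h7⟩ with h8 | h8
          · exact absurd h8 h6
          · exact h8
      · have hg := gain_del hc hX hval hl hr hbs hbm
        have e1 : (X.filter fun p => p ∉ l ++ r ∧ p.1 < m) =
            insert b (X.filter fun p => p ∉ l ++ b :: r ∧ p.1 < m) := by
          ext p
          rw [Finset.mem_insert, Finset.mem_filter, Finset.mem_filter, hmem]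
          constructor
          · rintro ⟨h4, h5, h6⟩
            by_cases h7 : p = b
            · exact Or.inl h7
            · exact Or.inr ⟨h4, fun h8 => h8.elim h7 h5, h6⟩
          · rintro (rfl | ⟨h4, h5, h6⟩)
            · exact ⟨hbX, hbn, hbm⟩
            · exact ⟨h4, fun h7 => h5 (Or.inr h7), h6⟩
        have e2 : ((l ++ b :: r).length : ℝ) = (l ++ r).length + 1 := by
          simp only [List.length_append, List.length_cons]
          push_cast
          ring
        have e3 : b ∉ X.filter fun p => p ∉ l ++ b :: r ∧ p.1 < m := by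
          rw [Finset.mem_filter]
          rintro ⟨-, h4, -⟩
          exact h4 hbQ
        unfold cnt
        rw [e1, Finset.card_insert_of_notMem e3, e2]
        push_cast
        linarith
    · refine ⟨Q', h1, fun p => ?_, h3⟩
      rw [h2, Finset.mem_insert, not_or]
      constructor
      · rintro ⟨h4, h5⟩
        refine ⟨h4, ?_, h5⟩
        rintro rfl
        exact hbQ ((h2 p).2 ⟨h4, h5⟩)
      · rintro ⟨h4, -, h5⟩
        exact ⟨h4, h5⟩

/-- Passing to the list of the points seen just after `m` does not lose anything. -/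
theorem to_future {X : Finset Pt} {H m : ℝ} {F : Pt → Pt → ℝ} {B T : Pt → ℝ}
    (hc : Cells H F B T) (hX : Ctx X H m) {V Q : List Pt}
    (hV : ∀ p, p ∈ V ↔ p ∈ X ∧ Fut X H m p) (hVv : Valid X H m V) (h : Valid X H m Q) :
    phi F B T Q - cnt X m Q ≤ phi F B T V - cnt X m V := by
  classical
  obtain ⟨Q1, h1, h2, h3⟩ := insert_all hc hX h V.toFinset (fun q hq => by
    rw [List.mem_toFinset] at hq
    exact ⟨hVv.seen q hq, fun hn => gt_of_fut hX.sep hX.str h ((hV q).1 hq).2 hn⟩)
  obtain ⟨Q2, h4, h5, h6⟩ := remove_all hc hX hVv h1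
    (fun p hp => (h2 p).2 (Or.inr (List.mem_toFinset.2 hp)))
    (Q.toFinset.filter fun b => b ∉ V) (fun b hb => by
      rw [Finset.mem_filter, List.mem_toFinset] at hb
      refine ⟨hb.2, ?_⟩
      have hs := h.seen b hb.1
      refine lt_of_not_fut hX.sep hX.str hs fun hf => hb.2 ?_
      obtain ⟨z, -, -, hv⟩ := hs
      exact (hV b).2 ⟨hv.1, hf⟩)
  have e : Q2 = V := by
    refine sorted_unique h4.sorted hVv.sorted fun p => ?_
    rw [h5, h2, List.mem_toFinset, Finset.mem_filter, List.mem_toFinset]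
    tauto
  rw [← e]
  exact h3.trans h6

theorem isClosed_cnt (X : Finset Pt) (Q : List Pt) (t : ℝ) : IsClosed {m | cnt X m Q ≤ t} := by
  classical
  rw [← isOpen_compl_iff, isOpen_iff_mem_nhds]
  intro m hm
  have hm' : t < cnt X m Q := not_le.1 hm
  have h1 : ∀ᶠ m' in 𝓝 m, ∀ q ∈ X, q.1 < m → q.1 < m' := by
    rw [Filter.eventually_all_finset]
    intro q _
    by_cases h : q.1 < m
    · filter_upwards [lt_mem_nhds h] with m' h2
      exact fun _ => h2
    · exact Filter.Eventually.of_forall fun m' h2 => absurd h2 h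
  filter_upwards [h1] with m' h2
  refine not_le.2 (hm'.trans_le ?_)
  unfold cnt
  have h3 : (X.filter fun q => q ∉ Q ∧ q.1 < m) ⊆ X.filter fun q => q ∉ Q ∧ q.1 < m' := by
    intro q hq
    rw [Finset.mem_filter] at hq ⊢
    exact ⟨hq.1, hq.2.1, h2 q hq.1 hq.2.2⟩
  have h4 : ((X.filter fun q => q ∉ Q ∧ q.1 < m).card : ℝ) ≤
      (X.filter fun q => q ∉ Q ∧ q.1 < m').card := by
    exact_mod_cast Finset.card_le_card h3
  linarith

theorem cnt_eventually {X : Finset Pt} {H m : ℝ} (hs : InStrip H X) {Q : List Pt}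
    (h : Valid X H m Q) : ∀ᶠ m' in 𝓝[>] m, cnt X m' Q = cnt X m Q := by
  classical
  have h1 : ∀ᶠ m' in 𝓝[>] m, ∀ q ∈ X, ((q ∉ Q ∧ q.1 < m') ↔ (q ∉ Q ∧ q.1 < m)) := by
    rw [Filter.eventually_all_finset]
    intro q hq
    rcases lt_trichotomy q.1 m with h2 | h2 | h2
    · have hself : ∀ᶠ m' in 𝓝[>] m, m < m' := eventually_mem_nhdsWithin
      filter_upwards [hself] with m' h3
      exact ⟨fun h4 => ⟨h4.1, h2⟩, fun h4 => ⟨h4.1, h2.trans h3⟩⟩
    · have h3 := own hs h hq h2
      exact Filter.Eventually.of_forall fun m' =>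
        ⟨fun h4 => absurd h3 h4.1, fun h4 => absurd h3 h4.1⟩
    · have hIoo : Set.Ioo m q.1 ∈ 𝓝[>] m := Ioo_mem_nhdsGT h2
      filter_upwards [hIoo] with m' h3
      constructor
      · rintro ⟨h4, h5⟩
        exact absurd (h5.trans h3.2) (lt_irrefl _)
      · rintro ⟨h4, h5⟩
        exact absurd (h5.trans h2) (lt_irrefl _)
  filter_upwards [h1] with m' h2
  unfold cnt
  congr 3
  exact Finset.filter_congr h2

theorem exists_valid {X : Finset Pt} {H : ℝ} (hX : X.Nonempty) (m : ℝ) :
    ∃ Q, Valid X H m Q := by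
  classical
  obtain ⟨Q, h1, h2⟩ := exists_sorted (X.filter fun p => Seen X H p m)
  refine ⟨Q, h1, fun p hp => ?_, fun z h0 hH => ?_⟩
  · rw [h2, Finset.mem_filter] at hp
    exact hp.2
  · obtain ⟨p, hp, hv⟩ := exists_vis hX m z
    refine ⟨p, ?_, hv⟩
    rw [h2, Finset.mem_filter]
    exact ⟨hp, z, h0, hH, hv⟩

/-- **The sweep.** -/
theorem sweep {X : Finset Pt} {H L : ℝ} {F : Pt → Pt → ℝ} {B T : Pt → ℝ} (hL : 0 ≤ L)
    (hc : Cells H F B T) (hX : ∀ m, 0 ≤ m → m ≤ L → Ctx X H m) (hne : X.Nonempty)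
    (hx : ∀ p ∈ X, 0 ≤ p.1 ∧ p.1 ≤ L) :
    ∃ Q0 QL, Valid X H 0 Q0 ∧ Valid X H L QL ∧
      (X.card : ℝ) ≤ phi F B T QL - phi F B T Q0 + (Q0.length : ℝ) / 2 + (QL.length : ℝ) / 2 := by
  classical
  obtain ⟨Q0, hQ0⟩ := exists_valid (H := H) hne 0
  set K0 : ℝ := phi F B T Q0 - cnt X 0 Q0 with hK0
  choose Qof hQof1 hQof2 using exists_sorted
  set s : Set ℝ := {m | ∃ Q, Valid X H m Q ∧ K0 ≤ phi F B T Q - cnt X m Q} with hs
  have hclosed : IsClosed s := by
    have e : s = ⋃ S ∈ X.powerset, ({m | Valid X H m (Qof S)} ∩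
        {m | cnt X m (Qof S) ≤ phi F B T (Qof S) - K0}) := by
      ext m
      simp only [hs, Set.mem_ofPred_eq, Set.mem_iUnion, Set.mem_inter_iff, exists_prop,
        Finset.mem_powerset]
      constructor
      · rintro ⟨Q, hQ, hK⟩
        have hQe : Qof Q.toFinset = Q := by
          refine sorted_unique (hQof1 _) hQ.sorted fun p => ?_
          rw [hQof2, List.mem_toFinset]
        refine ⟨Q.toFinset, fun p hp => ?_, ?_, ?_⟩
        · rw [List.mem_toFinset] at hp
          obtain ⟨z, -, -, hv⟩ := hQ.seen p hp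
          exact hv.1
        · rw [hQe]
          exact hQ
        · rw [hQe]
          linarith
      · rintro ⟨S, -, h1, h2⟩
        exact ⟨Qof S, h1, by linarith⟩
    rw [e]
    refine Set.Finite.isClosed_biUnion (Finset.finite_toSet _) fun S _ => ?_
    exact (isClosed_valid X H _).inter (isClosed_cnt X _ _)
  have hsub : Set.Icc 0 L ⊆ s := by
    refine IsClosed.Icc_subset_of_forall_exists_gt (hclosed.inter isClosed_Icc)
      ⟨Q0, hQ0, le_rfl⟩ ?_
    rintro x ⟨⟨Q, hQ, hK⟩, hx0, hxL⟩ y hy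
    have hctx := hX x hx0 hxL.le
    obtain ⟨V, hV1, hV2, hV3⟩ := exists_future (X := X) (H := H) (m := x) hne
    have h1 := to_future hc hctx hV1 hV2 hQ
    have h2 := cnt_eventually hctx.str hV2
    have h3 : ∀ᶠ m' in 𝓝[>] x, m' ∈ Set.Ioc x y := Ioc_mem_nhdsGT hy
    obtain ⟨m', h4, h5, h6⟩ := (hV3.and (h2.and h3)).exists
    refine ⟨m', ⟨V, h4, ?_⟩, h6⟩
    rw [h5]
    linarith
  obtain ⟨QL, hQL, hK⟩ := hsub ⟨hL, le_rfl⟩
  refine ⟨Q0, QL, hQ0, hQL, ?_⟩
  have e0 : cnt X 0 Q0 = (Q0.length : ℝ) / 2 := by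
    unfold cnt
    rw [Finset.filter_false_of_mem]
    · simp
    · rintro q hq ⟨-, h1⟩
      exact absurd (hx q hq).1 (not_le.2 h1)
  have hctx := hX L hL le_rfl
  have hsubL : QL.toFinset ⊆ X := by
    intro p hp
    rw [List.mem_toFinset] at hp
    obtain ⟨z, -, -, hv⟩ := hQL.seen p hp
    exact hv.1
  have hnodup : QL.Nodup := hQL.sorted.imp fun h => h.ne
  have e1 : (X.filter fun q => q ∉ QL ∧ q.1 < L) = X \ QL.toFinset := by
    ext p
    rw [Finset.mem_filter, Finset.mem_sdiff, List.mem_toFinset]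
    constructor
    · rintro ⟨h1, h2, -⟩
      exact ⟨h1, h2⟩
    · rintro ⟨h1, h2⟩
      refine ⟨h1, h2, lt_of_le_of_ne (hx p h1).2 fun h3 => ?_⟩
      exact h2 (own hctx.str hQL h1 h3)
  have e2 : cnt X L QL = (X.card : ℝ) - (QL.length : ℝ) / 2 := by
    unfold cnt
    rw [e1, Finset.card_sdiff_of_subset hsubL, List.toFinset_card_of_nodup hnodup]
    rw [Nat.cast_sub]
    · ring
    · rw [← List.toFinset_card_of_nodup hnodup]
      exact Finset.card_le_card hsubL
  rw [hK0, e0, e2] at hK
  linarith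

end Pool.Agent.Strip051.Sweep
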