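import Pool.Agent.Strip051.Sweep.Core
import Pool.Agent.Strip051.Half

/-! # From the local certificate to the density of packings

`count`: a local certificate of growth `ρ` in the strip of height `H` gives
`card X ≤ ρ L + C` for all separated sets `X` in `[0, L] × [0, H]`. -/

namespace Pool.Agent.Strip051.Sweep

open Filter Topology Pool.Agent.StripNear Pool.Agent.StripTwo

/-- Crude bound for the number of points in a box. -/
theorem card_box {X : Finset Pt} (hX : UnitSep X) {a W H : ℝ}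
    (h : ∀ p ∈ X, a ≤ p.1 ∧ p.1 ≤ a + W ∧ 0 ≤ p.2 ∧ p.2 ≤ H) :
    X.card ≤ (⌊2 * W⌋₊ + 1) * (⌊2 * H⌋₊ + 1) := by
  classical
  have h1 : X.card ≤
      (Finset.range (⌊2 * W⌋₊ + 1) ×ˢ Finset.range (⌊2 * H⌋₊ + 1)).card := by
    apply Finset.card_le_card_of_injOn (fun p => (⌊2 * (p.1 - a)⌋₊, ⌊2 * p.2⌋₊))
    · intro p hp
      obtain ⟨h1, h2, h3, h4⟩ := h p hp
      simp only [Finset.coe_product, Set.mem_prod, Finset.coe_range, Set.mem_Iio]
      constructor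
      · exact Nat.lt_succ_of_le (Nat.floor_le_floor (by linarith))
      · exact Nat.lt_succ_of_le (Nat.floor_le_floor (by linarith))
    · intro p hp q hq hpq
      by_contra hne
      have hs := hX p hp q hq hne
      obtain ⟨h1, h2, h3, h4⟩ := h p hp
      obtain ⟨g1, g2, g3, g4⟩ := h q hq
      simp only [Prod.mk.injEq] at hpq
      obtain ⟨e1, e2⟩ := hpq
      have a1 := Nat.floor_le (by linarith : 0 ≤ 2 * (p.1 - a))
      have a2 := Nat.lt_floor_add_one (2 * (p.1 - a))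
      have a3 := Nat.floor_le (by linarith : 0 ≤ 2 * (q.1 - a))
      have a4 := Nat.lt_floor_add_one (2 * (q.1 - a))
      have b1 := Nat.floor_le (by linarith : 0 ≤ 2 * p.2)
      have b2 := Nat.lt_floor_add_one (2 * p.2)
      have b3 := Nat.floor_le (by linarith : 0 ≤ 2 * q.2)
      have b4 := Nat.lt_floor_add_one (2 * q.2)
      rw [e1] at a1 a2
      rw [e2] at b1 b2
      have c1 : |p.1 - q.1| < 1 / 2 := by
        rw [abs_lt]
        constructor <;> linarith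
      have c2 : |p.2 - q.2| < 1 / 2 := by
        rw [abs_lt]
        constructor <;> linarith
      have d1 : (p.1 - q.1) ^ 2 < (1 / 2) ^ 2 := sq_lt_sq' (by linarith [(abs_lt.1 c1).1])
        (abs_lt.1 c1).2
      have d2 : (p.2 - q.2) ^ 2 < (1 / 2) ^ 2 := sq_lt_sq' (by linarith [(abs_lt.1 c2).1])
        (abs_lt.1 c2).2
      linarith
  rwa [Finset.card_product, Finset.card_range, Finset.card_range] at h1

/-- Saturation. -/
theorem saturate {L H : ℝ} (k : ℕ) (X : Finset Pt) (hX : UnitSep X)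
    (hx : ∀ p ∈ X, 0 ≤ p.1 ∧ p.1 ≤ L) (hs : InStrip H X)
    (hk : (⌊2 * L⌋₊ + 1) * (⌊2 * H⌋₊ + 1) ≤ X.card + k) :
    ∃ Y : Finset Pt, X ⊆ Y ∧ UnitSep Y ∧ (∀ p ∈ Y, 0 ≤ p.1 ∧ p.1 ≤ L) ∧ InStrip H Y ∧
      ∀ m z : ℝ, 0 ≤ m → m ≤ L → 0 ≤ z → z ≤ H → ∃ p ∈ Y, dq p m z ≤ 1 := by
  classical
  by_cases hsat : ∀ m z : ℝ, 0 ≤ m → m ≤ L → 0 ≤ z → z ≤ H → ∃ p ∈ X, dq p m z ≤ 1
  · exact ⟨X, Finset.Subset.refl _, hX, hx, hs, hsat⟩
  · push Not at hsat
    obtain ⟨m, z, hm0, hmL, hz0, hzH, hfar⟩ := hsat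
    have hnew : ((m, z) : Pt) ∉ X := by
      intro hmem
      have := hfar _ hmem
      unfold dq at this
      simp only [sub_self] at this
      linarith
    have hX' : UnitSep (insert ((m, z) : Pt) X) := by
      intro p hp q hq hpq
      rw [Finset.mem_insert] at hp hq
      rcases hp with rfl | hp
      · rcases hq with rfl | hq
        · exact absurd rfl hpq
        · exact (hfar q hq).le
      · rcases hq with rfl | hq
        · have := (hfar p hp).le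
          unfold dq at this
          show 1 ≤ (p.1 - m) ^ 2 + (p.2 - z) ^ 2
          linarith [sq_abs (p.1 - m), show (m - p.1) ^ 2 = (p.1 - m) ^ 2 by ring,
            show (z - p.2) ^ 2 = (p.2 - z) ^ 2 by ring]
        · exact hX p hp q hq hpq
    have hx' : ∀ p ∈ insert ((m, z) : Pt) X, 0 ≤ p.1 ∧ p.1 ≤ L := by
      intro p hp
      rw [Finset.mem_insert] at hp
      rcases hp with rfl | hp
      · exact ⟨hm0, hmL⟩
      · exact hx p hp
    have hs' : InStrip H (insert ((m, z) : Pt) X) := by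
      intro p hp
      rw [Finset.mem_insert] at hp
      rcases hp with rfl | hp
      · exact ⟨hz0, hzH⟩
      · exact hs p hp
    have hcard := Finset.card_insert_of_notMem hnew
    cases k with
    | zero =>
      have h1 := card_box hX' (a := 0) (W := L) (H := H) fun p hp =>
        ⟨(hx' p hp).1, by linarith [(hx' p hp).2], (hs' p hp).1, (hs' p hp).2⟩
      omega
    | succ k =>
      obtain ⟨Y, h1, h2⟩ := saturate k _ hX' hx' hs' (by omega)
      exact ⟨Y, (Finset.subset_insert _ _).trans h1, h2⟩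

theorem path_bound {F : Pt → Pt → ℝ} {T : Pt → ℝ} {H w' K m : ℝ}
    (hF : ∀ a b : Pt, |a.1 - b.1| ≤ 2 → 0 ≤ a.2 → a.2 ≤ H → 0 ≤ b.2 → b.2 ≤ H → |F a b| ≤ K)
    (hT : ∀ a : Pt, 0 ≤ a.2 → a.2 ≤ H → |T a - w' * a.1| ≤ K) (p : Pt) (l : List Pt)
    (hl : ∀ q ∈ p :: l, |q.1 - m| ≤ 1 ∧ 0 ≤ q.2 ∧ q.2 ≤ H) :
    |path F T p l - w' * m| ≤ |w'| + K + l.length * K := by
  induction l generalizing p with
  | nil =>
    obtain ⟨h1, h2, h3⟩ := hl p (by simp)
    have h4 := hT p h2 h3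
    have h5 : |w' * (p.1 - m)| ≤ |w'| := by
      rw [abs_mul]
      exact mul_le_of_le_one_right (abs_nonneg _) h1
    have h6 : path F T p [] - w' * m = (T p - w' * p.1) + w' * (p.1 - m) := by
      show T p - w' * m = _
      ring
    rw [h6]
    have h7 := abs_add_le (T p - w' * p.1) (w' * (p.1 - m))
    simp only [List.length_nil, Nat.cast_zero, zero_mul, add_zero]
    linarith
  | cons q l ih =>
    have h1 := ih q fun r hr => hl r (List.mem_cons_of_mem _ hr)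
    obtain ⟨a1, a2, a3⟩ := hl p (by simp)
    obtain ⟨b1, b2, b3⟩ := hl q (by simp)
    have h2 : |p.1 - q.1| ≤ 2 := by
      have : p.1 - q.1 = (p.1 - m) - (q.1 - m) := by ring
      rw [this]
      have := abs_sub (p.1 - m) (q.1 - m)
      linarith
    have h3 := hF p q h2 a2 a3 b2 b3
    have h4 : path F T p (q :: l) - w' * m = F p q + (path F T q l - w' * m) := by
      show F p q + path F T q l - w' * m = _
      ring
    rw [h4]
    have h5 := abs_add_le (F p q) (path F T q l - w' * m)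
    simp only [List.length_cons]
    push_cast
    linarith

theorem phi_bound {F : Pt → Pt → ℝ} {B T : Pt → ℝ} {H w w' K m : ℝ} (hK : 0 ≤ K)
    (hF : ∀ a b : Pt, |a.1 - b.1| ≤ 2 → 0 ≤ a.2 → a.2 ≤ H → 0 ≤ b.2 → b.2 ≤ H → |F a b| ≤ K)
    (hB : ∀ a : Pt, 0 ≤ a.2 → a.2 ≤ H → |B a - w * a.1| ≤ K)
    (hT : ∀ a : Pt, 0 ≤ a.2 → a.2 ≤ H → |T a - w' * a.1| ≤ K) (Q : List Pt) (hQ : Q ≠ [])
    (hl : ∀ q ∈ Q, |q.1 - m| ≤ 1 ∧ 0 ≤ q.2 ∧ q.2 ≤ H) :
    |phi F B T Q - (w + w') * m| ≤ |w| + |w'| + 2 * K + Q.length * K := by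
  cases Q with
  | nil => exact absurd rfl hQ
  | cons p l =>
    have h1 := path_bound hF hT p l hl
    obtain ⟨a1, a2, a3⟩ := hl p (by simp)
    have h4 := hB p a2 a3
    have h5 : |w * (p.1 - m)| ≤ |w| := by
      rw [abs_mul]
      exact mul_le_of_le_one_right (abs_nonneg _) a1
    have h6 : phi F B T (p :: l) - (w + w') * m =
        (B p - w * p.1) + w * (p.1 - m) + (path F T p l - w' * m) := by
      show B p + path F T p l - (w + w') * m = _
      ring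
    rw [h6]
    have h7 := abs_add_le (B p - w * p.1 + w * (p.1 - m)) (path F T p l - w' * m)
    have h8 := abs_add_le (B p - w * p.1) (w * (p.1 - m))
    simp only [List.length_cons]
    push_cast
    nlinarith

/-- **The count.** -/
theorem count {F : Pt → Pt → ℝ} {B T : Pt → ℝ} {H w w' K : ℝ} (hH : 0 ≤ H)
    (hc : Cells H F B T)
    (hF : ∀ a b : Pt, |a.1 - b.1| ≤ 2 → 0 ≤ a.2 → a.2 ≤ H → 0 ≤ b.2 → b.2 ≤ H → |F a b| ≤ K)
    (hB : ∀ a : Pt, 0 ≤ a.2 → a.2 ≤ H → |B a - w * a.1| ≤ K)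
    (hT : ∀ a : Pt, 0 ≤ a.2 → a.2 ≤ H → |T a - w' * a.1| ≤ K) :
    ∃ C : ℝ, ∀ L : ℝ, 0 ≤ L → ∀ X : Finset Pt, UnitSep X → (∀ p ∈ X, 0 ≤ p.1 ∧ p.1 ≤ L) →
      InStrip H X → (X.card : ℝ) ≤ (w + w') * L + C := by
  classical
  have hK : 0 ≤ K := (abs_nonneg _).trans (hB (0, 0) le_rfl hH)
  set N : ℕ := (⌊2 * (2 : ℝ)⌋₊ + 1) * (⌊2 * H⌋₊ + 1) with hN
  refine ⟨2 * (|w| + |w'| + 2 * K + N * K) + N, fun L hL X hX hx hs => ?_⟩
  obtain ⟨Y, hXY, hY, hxY, hsY, hsat⟩ := saturate ((⌊2 * L⌋₊ + 1) * (⌊2 * H⌋₊ + 1)) X hX hx hs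
    (Nat.le_add_left _ _)
  have hctx : ∀ m, 0 ≤ m → m ≤ L → Ctx Y H m := fun m h0 h1 =>
    ⟨hH, hY, hsY, fun z h2 h3 => hsat m z h0 h1 h2 h3⟩
  have hne : Y.Nonempty := by
    obtain ⟨p, hp, -⟩ := hsat 0 0 le_rfl hL le_rfl hH
    exact ⟨p, hp⟩
  obtain ⟨Q0, QL, h0, h1, h2⟩ := sweep hL hc hctx hne hxY
  have key : ∀ m, 0 ≤ m → m ≤ L → ∀ Q, Valid Y H m Q →
      |phi F B T Q - (w + w') * m| ≤ |w| + |w'| + 2 * K + N * K ∧ (Q.length : ℝ) ≤ N := by
    intro m hm0 hmL Q hQ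
    have hmem : ∀ q ∈ Q, |q.1 - m| ≤ 1 ∧ 0 ≤ q.2 ∧ q.2 ≤ H := by
      intro q hq
      obtain ⟨z, hz0, hzH, hv⟩ := hQ.seen q hq
      have h3 := (hctx m hm0 hmL).rad hz0 hzH hv
      refine ⟨?_, hsY q hv.1⟩
      unfold dq at h3
      have h4 : (q.1 - m) ^ 2 ≤ 1 := by nlinarith [sq_nonneg (z - q.2)]
      exact (sq_le_one_iff_abs_le_one _).1 h4
    have hQne : Q ≠ [] := by
      rintro rfl
      exact valid_ne_nil hH hQ
    have hnodup : Q.Nodup := hQ.sorted.imp fun h => h.ne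
    have hlen : Q.length ≤ N := by
      rw [← List.toFinset_card_of_nodup hnodup]
      have hsep : UnitSep Q.toFinset := by
        intro p hp q hq hpq
        rw [List.mem_toFinset] at hp hq
        obtain ⟨z, -, -, hv⟩ := hQ.seen p hp
        obtain ⟨z', -, -, hv'⟩ := hQ.seen q hq
        exact hY p hv.1 q hv'.1 hpq
      refine card_box hsep (a := m - 1) (W := 2) (H := H) fun p hp => ?_
      rw [List.mem_toFinset] at hp
      obtain ⟨h3, h4, h5⟩ := hmem p hp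
      rw [abs_le] at h3
      exact ⟨by linarith [h3.1], by linarith [h3.2], h4, h5⟩
    have hlen' : (Q.length : ℝ) ≤ N := by exact_mod_cast hlen
    have h3 := phi_bound hK hF hB hT Q hQne hmem
    refine ⟨h3.trans ?_, hlen'⟩
    have := mul_le_mul_of_nonneg_right hlen' hK
    linarith
  obtain ⟨a1, a2⟩ := key 0 le_rfl hL Q0 h0
  obtain ⟨b1, b2⟩ := key L hL le_rfl QL h1
  have hcard : (X.card : ℝ) ≤ Y.card := by exact_mod_cast Finset.card_le_card hXY
  rw [abs_le] at a1 b1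
  linarith [a1.1, a1.2, b1.1, b1.2]

/-- **From a local certificate to Molnar's bound**, one width. -/
theorem molnar_of_cells {W : ℝ} (hW : 2 ≤ W) {F : Pt → Pt → ℝ} {B T : Pt → ℝ} {w w' K : ℝ}
    (hc : Cells ((W - 2) / 2) F B T)
    (hsum : (w + w') * (rowNumber W + 2 * StripSquare.g ((W - 2) / 2 - rowNumber W * h0)) =
      (rowNumber W + 1) * (rowNumber W + 2))
    (hF : ∀ a b : Pt, |a.1 - b.1| ≤ 2 → 0 ≤ a.2 → a.2 ≤ (W - 2) / 2 → 0 ≤ b.2 →
      b.2 ≤ (W - 2) / 2 → |F a b| ≤ K)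
    (hB : ∀ a : Pt, 0 ≤ a.2 → a.2 ≤ (W - 2) / 2 → |B a - w * a.1| ≤ K)
    (hT : ∀ a : Pt, 0 ≤ a.2 → a.2 ≤ (W - 2) / 2 → |T a - w' * a.1| ≤ K)
    {C : Set E2} (hC : IsStripPacking W C) {O : E2} {d : ℝ} (hd : HasDensity W C O d) :
    d ≤ molnar W := by
  refine molnar_of_count hW ?_ hC hd
  obtain ⟨C0, hC0⟩ := count (by linarith : 0 ≤ (W - 2) / 2) hc hF hB hT
  set A : ℝ := rowNumber W + 2 * StripSquare.g ((W - 2) / 2 - rowNumber W * h0) with hA
  have hA0 : 0 ≤ A := by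
    have h1 : (0 : ℝ) ≤ rowNumber W := Nat.cast_nonneg _
    have h2 : 0 ≤ StripSquare.g ((W - 2) / 2 - rowNumber W * h0) := StripSquare.g_nonneg _
    rw [hA]
    linarith
  refine ⟨A * C0, fun L hL X hX hx hs => ?_⟩
  have h1 := mul_le_mul_of_nonneg_left (hC0 L hL X hX hx hs) hA0
  have h2 : A * ((w + w') * L + C0) = (w + w') * A * L + A * C0 := by ring
  rw [h2, hsum] at h1
  exact h1

end Pool.Agent.Strip051.Sweep
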