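import Pool.Agent.Strip051.Sweep.Move

/-! # The points seen just after a given time -/

namespace Pool.Agent.Strip051.Sweep

open Filter Topology Pool.Agent.StripNear

theorem dq_comb (p q : Pt) (m z m' z' t : ℝ) :
    dq p ((1 - t) * m + t * m') ((1 - t) * z + t * z') -
        dq q ((1 - t) * m + t * m') ((1 - t) * z + t * z') =
      (1 - t) * (dq p m z - dq q m z) + t * (dq p m' z' - dq q m' z') := by
  unfold dq
  ring

theorem vis_comb {X : Finset Pt} {p : Pt} {m z m' z' t : ℝ} (h : Vis X p m z)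
    (h' : Vis X p m' z') (h0 : 0 ≤ t) (h1 : t ≤ 1) :
    Vis X p ((1 - t) * m + t * m') ((1 - t) * z + t * z') := by
  refine ⟨h.1, fun q hq => ?_⟩
  have e := dq_comb p q m z m' z' t
  have e1 := mul_nonneg (sub_nonneg.2 h1) (sub_nonneg.2 (h.2 q hq))
  have e2 := mul_nonneg h0 (sub_nonneg.2 (h'.2 q hq))
  nlinarith

theorem comb_mem {H z z' t : ℝ} (h0 : 0 ≤ t) (h1 : t ≤ 1) (hz : 0 ≤ z) (hzH : z ≤ H)
    (hz' : 0 ≤ z') (hzH' : z' ≤ H) :
    0 ≤ (1 - t) * z + t * z' ∧ (1 - t) * z + t * z' ≤ H := by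
  have h2 : 0 ≤ 1 - t := by linarith
  constructor
  · positivity
  · have e1 := mul_le_mul_of_nonneg_left hzH h2
    have e2 := mul_le_mul_of_nonneg_left hzH' h0
    linarith

/-- The times at which a point is seen form an interval. -/
theorem seen_between {X : Finset Pt} {H : ℝ} {p : Pt} {m m1 m2 : ℝ} (h1 : Seen X H p m1)
    (h2 : Seen X H p m2) (hm1 : m1 ≤ m) (hm2 : m ≤ m2) : Seen X H p m := by
  obtain ⟨z1, ha, hb, hv1⟩ := h1
  obtain ⟨z2, hc, hd, hv2⟩ := h2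
  rcases eq_or_lt_of_le (hm1.trans hm2) with h | h
  · have e : m = m1 := le_antisymm (h ▸ hm2) hm1
    rw [e]
    exact ⟨z1, ha, hb, hv1⟩
  · have hd0 : 0 < m2 - m1 := by linarith
    have ht0 : 0 ≤ (m - m1) / (m2 - m1) := div_nonneg (by linarith) hd0.le
    have ht1 : (m - m1) / (m2 - m1) ≤ 1 := by
      rw [div_le_one hd0]
      linarith
    have hv := vis_comb hv1 hv2 ht0 ht1
    obtain ⟨g1, g2⟩ := comb_mem ht0 ht1 ha hb hc hd
    refine ⟨_, g1, g2, ?_⟩
    have e : (1 - (m - m1) / (m2 - m1)) * m1 + (m - m1) / (m2 - m1) * m2 = m := by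
      field_simp
      ring
    rwa [e] at hv

/-- On the way from a point where it is nearest to itself a point is the only nearest point. -/
theorem ray {X : Finset Pt} (hX : UnitSep X) {p q : Pt} {m z t : ℝ} (h : Vis X p m z)
    (h0 : 0 < t) (h1 : t ≤ 1) (hq : q ∈ X) (hne : q ≠ p) :
    dq p ((1 - t) * m + t * p.1) ((1 - t) * z + t * p.2) <
      dq q ((1 - t) * m + t * p.1) ((1 - t) * z + t * p.2) := by
  have e := dq_comb p q m z p.1 p.2 t
  have e1 := mul_nonneg (sub_nonneg.2 h1) (sub_nonneg.2 (h.2 q hq))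
  have e2 : dq p p.1 p.2 = 0 := by
    unfold dq
    ring
  have e3 : 1 ≤ dq q p.1 p.2 := hX p h.1 q hq hne.symm
  have e4 : 0 < t * (dq q p.1 p.2 - dq p p.1 p.2) := by
    rw [e2]
    exact mul_pos h0 (by linarith)
  nlinarith

/-- `p` is seen at all times just after `m`. -/
def Fut (X : Finset Pt) (H m : ℝ) (p : Pt) : Prop := ∀ᶠ m' in 𝓝[>] m, Seen X H p m'

theorem not_fut {X : Finset Pt} {H m : ℝ} {p : Pt} (h : ¬ Fut X H m p) :
    ∀ᶠ m' in 𝓝[>] m, ¬ Seen X H p m' := by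
  by_contra hcon
  rw [Filter.not_eventually] at hcon
  apply h
  have hcon' : ∃ᶠ m' in 𝓝[>] m, Seen X H p m' := by
    simpa using hcon
  have hself : ∀ᶠ m' in 𝓝[>] m, m < m' := eventually_mem_nhdsWithin
  obtain ⟨m1, hm1, hmm⟩ := (hcon'.and_eventually hself).exists
  have hIoo : Set.Ioo m m1 ∈ 𝓝[>] m := Ioo_mem_nhdsGT hmm
  filter_upwards [hIoo] with m' hm'
  have h2 : Set.Ioo m m' ∈ 𝓝[>] m := Ioo_mem_nhdsGT hm'.1
  obtain ⟨m2, hm2, hmm2⟩ := (hcon'.and_eventually h2).exists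
  exact seen_between hm2 hm1 hmm2.2.le hm'.2.le

theorem lt_of_not_fut {X : Finset Pt} {H m : ℝ} {p : Pt} (hX : UnitSep X) (hs : InStrip H X)
    (h : Seen X H p m) (hf : ¬ Fut X H m p) : p.1 < m := by
  by_contra hcon
  push Not at hcon
  apply hf
  obtain ⟨z, hz0, hzH, hv⟩ := h
  obtain ⟨hp0, hpH⟩ := hs p hv.1
  rcases eq_or_lt_of_le hcon with he | hlt
  · have hIoo : Set.Ioo m (m + 1 / 2) ∈ 𝓝[>] m := Ioo_mem_nhdsGT (by linarith)
    filter_upwards [hIoo] with m' hm'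
    refine ⟨p.2, hp0, hpH, hv.1, fun q hq => ?_⟩
    by_cases hqp : q = p
    · rw [hqp]
    · have h1 := hX p hv.1 q hq (Ne.symm hqp)
      unfold dq
      rw [← he] at *
      have h2 := hm'.1
      have h3 := hm'.2
      have h4 : (m' - m) * (q.1 - m) ≤ 1 / 2 * ((m - q.1) ^ 2 + (p.2 - q.2) ^ 2) := by
        rcases le_total (q.1 - m) 1 with h5 | h5
        · rcases le_total (q.1 - m) 0 with h6 | h6
          · nlinarith
          · nlinarith
        · nlinarith [sq_nonneg (p.2 - q.2)]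
      nlinarith
  · have hIoo : Set.Ioo m p.1 ∈ 𝓝[>] m := Ioo_mem_nhdsGT hlt
    filter_upwards [hIoo] with m' hm'
    have hd : 0 < p.1 - m := by linarith
    have ht0 : 0 ≤ (m' - m) / (p.1 - m) := div_nonneg (by linarith [hm'.1]) hd.le
    have ht1 : (m' - m) / (p.1 - m) ≤ 1 := by
      rw [div_le_one hd]
      linarith [hm'.2]
    have hself : Vis X p p.1 p.2 := by
      refine ⟨hv.1, fun q hq => ?_⟩
      unfold dq
      nlinarith [sq_nonneg (p.1 - q.1), sq_nonneg (p.2 - q.2)]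
    have hv' := vis_comb hv hself ht0 ht1
    obtain ⟨g1, g2⟩ := comb_mem ht0 ht1 hz0 hzH hp0 hpH
    refine ⟨_, g1, g2, ?_⟩
    have e : (1 - (m' - m) / (p.1 - m)) * m + (m' - m) / (p.1 - m) * p.1 = m' := by
      field_simp
      ring
    rwa [e] at hv'

theorem gt_of_fut {X : Finset Pt} {H m : ℝ} {q : Pt} {Q : List Pt} (hX : UnitSep X)
    (hs : InStrip H X) (h : Valid X H m Q) (hf : Fut X H m q) (hq : q ∉ Q) : m < q.1 := by
  by_contra hcon
  push Not at hcon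
  have hself : ∀ᶠ m' in 𝓝[>] m, m < m' := eventually_mem_nhdsWithin
  obtain ⟨m', ⟨z, hz0, hzH, hv⟩, hmm⟩ := (hf.and hself).exists
  obtain ⟨hp0, hpH⟩ := hs q hv.1
  have hd : 0 < m' - q.1 := by linarith
  have ht0 : 0 < (m' - m) / (m' - q.1) := div_pos (by linarith) hd
  have ht1 : (m' - m) / (m' - q.1) ≤ 1 := by
    rw [div_le_one hd]
    linarith
  obtain ⟨g1, g2⟩ := comb_mem ht0.le ht1 hz0 hzH hp0 hpH
  obtain ⟨p, hpQ, hpv⟩ := h.cover _ g1 g2
  have hne : p ≠ q := by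
    rintro rfl
    exact hq hpQ
  have e : (1 - (m' - m) / (m' - q.1)) * m' + (m' - m) / (m' - q.1) * q.1 = m := by
    field_simp
    ring
  have h1 := ray hX hv ht0 ht1 hpv.1 hne
  rw [e] at h1
  have h2 := hpv.2 q hv.1
  linarith

theorem own {X : Finset Pt} {H m : ℝ} {q : Pt} {Q : List Pt} (hs : InStrip H X)
    (h : Valid X H m Q) (hq : q ∈ X) (hm : q.1 = m) : q ∈ Q := by
  obtain ⟨hp0, hpH⟩ := hs q hq
  obtain ⟨p, hpQ, hpv⟩ := h.cover _ hp0 hpH
  have h1 := hpv.2 q hq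
  unfold dq at h1
  have h2 : (m - p.1) ^ 2 + (q.2 - p.2) ^ 2 ≤ 0 := by
    rw [← hm] at h1 ⊢
    linarith
  have h3 : m - p.1 = 0 := by
    nlinarith [sq_nonneg (m - p.1), sq_nonneg (q.2 - p.2)]
  have h4 : q.2 - p.2 = 0 := by
    nlinarith [sq_nonneg (m - p.1), sq_nonneg (q.2 - p.2)]
  have : p = q := Prod.ext (by linarith) (by linarith)
  rwa [← this]

theorem continuous_dq (p : Pt) : Continuous fun x : ℝ × ℝ => dq p x.1 x.2 := by
  unfold dq
  fun_prop

theorem isClosed_vis (X : Finset Pt) (p : Pt) : IsClosed {x : ℝ × ℝ | Vis X p x.1 x.2} := by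
  have e : {x : ℝ × ℝ | Vis X p x.1 x.2} =
      {x : ℝ × ℝ | p ∈ X} ∩ ⋂ q ∈ X, {x : ℝ × ℝ | dq p x.1 x.2 ≤ dq q x.1 x.2} := by
    ext x
    simp only [Vis, Set.mem_ofPred_eq, Set.mem_inter_iff, Set.mem_iInter]
  rw [e]
  refine IsClosed.inter isClosed_const ?_
  refine isClosed_biInter fun q _ => ?_
  exact isClosed_le (continuous_dq p) (continuous_dq q)

theorem isClosed_vis_left (X : Finset Pt) (p : Pt) (z : ℝ) : IsClosed {m : ℝ | Vis X p m z} :=
  (isClosed_vis X p).preimage (by fun_prop : Continuous fun m : ℝ => (m, z))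

theorem isClosed_seen (X : Finset Pt) (H : ℝ) (p : Pt) : IsClosed {m : ℝ | Seen X H p m} := by
  have h1 : IsClosed {x : ℝ × Set.Icc (0 : ℝ) H | Vis X p x.1 x.2} :=
    (isClosed_vis X p).preimage (by fun_prop :
      Continuous fun x : ℝ × Set.Icc (0 : ℝ) H => (x.1, (x.2 : ℝ)))
  have h2 := isClosedMap_fst_of_compactSpace _ h1
  have e : {m : ℝ | Seen X H p m} =
      Prod.fst '' {x : ℝ × Set.Icc (0 : ℝ) H | Vis X p x.1 x.2} := by
    ext m
    simp only [Set.mem_ofPred_eq, Set.mem_image, Prod.exists, exists_and_right, exists_eq_right,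
      Subtype.exists, Seen, Set.mem_Icc]
    constructor
    · rintro ⟨z, h0, hH, hv⟩
      exact ⟨z, ⟨h0, hH⟩, hv⟩
    · rintro ⟨z, ⟨h0, hH⟩, hv⟩
      exact ⟨z, h0, hH, hv⟩
  rw [e]
  exact h2

theorem isClosed_valid (X : Finset Pt) (H : ℝ) (Q : List Pt) : IsClosed {m | Valid X H m Q} := by
  have e : {m | Valid X H m Q} = {_m : ℝ | Q.Pairwise Lt} ∩ ((⋂ p ∈ Q, {m | Seen X H p m}) ∩
      ⋂ z ∈ Set.Icc (0 : ℝ) H, {m | ∃ p ∈ Q, Vis X p m z}) := by
    ext m
    simp only [Set.mem_ofPred_eq, Set.mem_inter_iff, Set.mem_iInter, Set.mem_Icc]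
    constructor
    · intro h
      exact ⟨h.sorted, h.seen, fun z hz => h.cover z hz.1 hz.2⟩
    · rintro ⟨h1, h2, h3⟩
      exact ⟨h1, h2, fun z h0 hH => h3 z ⟨h0, hH⟩⟩
  rw [e]
  refine IsClosed.inter isClosed_const (IsClosed.inter ?_ ?_)
  · refine isClosed_iInter fun p => isClosed_iInter fun _ => isClosed_seen X H p
  · refine isClosed_biInter fun z _ => ?_
    have e2 : {m | ∃ p ∈ Q, Vis X p m z} = ⋃ p ∈ Q.toFinset, {m | Vis X p m z} := by
      ext m
      simp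
    rw [e2]
    exact Set.Finite.isClosed_biUnion (Finset.finite_toSet _) fun p _ => isClosed_vis_left X p z

theorem exists_vis {X : Finset Pt} (hX : X.Nonempty) (m z : ℝ) : ∃ p ∈ X, Vis X p m z := by
  obtain ⟨p, hp, h⟩ := X.exists_min_image (fun p => dq p m z) hX
  exact ⟨p, hp, hp, h⟩

/-- The list of the points seen just after `m`. -/
theorem exists_future {X : Finset Pt} {H m : ℝ} (hX : X.Nonempty) :
    ∃ V : List Pt, (∀ p, p ∈ V ↔ p ∈ X ∧ Fut X H m p) ∧ Valid X H m V ∧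
      ∀ᶠ m' in 𝓝[>] m, Valid X H m' V := by
  classical
  obtain ⟨V, hV, hmem⟩ := exists_sorted (X.filter fun p => Fut X H m p)
  have hmem' : ∀ p, p ∈ V ↔ p ∈ X ∧ Fut X H m p := fun p => by rw [hmem, Finset.mem_filter]
  have h1 : ∀ᶠ m' in 𝓝[>] m, ∀ p ∈ X, (Seen X H p m' ↔ Fut X H m p) := by
    rw [Filter.eventually_all_finset]
    intro p _
    by_cases hf : Fut X H m p
    · filter_upwards [hf] with m' hm'
      exact ⟨fun _ => hf, fun _ => hm'⟩
    · filter_upwards [not_fut hf] with m' hm'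
      exact ⟨fun h => absurd h hm', fun h => absurd h hf⟩
  have h2 : ∀ᶠ m' in 𝓝[>] m, Valid X H m' V := by
    filter_upwards [h1] with m' hm'
    refine ⟨hV, fun p hp => ?_, fun z h0 hH => ?_⟩
    · rw [hmem'] at hp
      exact (hm' p hp.1).2 hp.2
    · obtain ⟨p, hp, hv⟩ := exists_vis hX m' z
      exact ⟨p, (hmem' p).2 ⟨hp, (hm' p hp).1 ⟨z, h0, hH, hv⟩⟩, hv⟩
  refine ⟨V, hmem', ?_, h2⟩
  exact (isClosed_valid X H V).mem_of_frequently_of_tendsto h2.frequently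
    (tendsto_id.mono_left nhdsWithin_le_nhds)

end Pool.Agent.Strip051.Sweep
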