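import Pool.Agent.Strip051.Sweep.Basic

/-! # Elementary moves of the list of nearest points and the local certificate -/

namespace Pool.Agent.Strip051.Sweep

open Pool.Agent.StripNear

/-- Squared distance of two points. -/
def sq (p q : Pt) : ℝ := (p.1 - q.1) ^ 2 + (p.2 - q.2) ^ 2

/-- Three points on a circle of radius at most one about the point `(m, z)` of the strip. -/
structure Tri (H : ℝ) (a b c : Pt) (m z : ℝ) : Prop where
  hab : Lt a b
  hbc : Lt b c
  hz0 : 0 ≤ z
  hzH : z ≤ H
  ha0 : 0 ≤ a.2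
  hcH : c.2 ≤ H
  sab : 1 ≤ sq a b
  sbc : 1 ≤ sq b c
  sac : 1 ≤ sq a c
  eab : dq a m z = dq b m z
  ebc : dq b m z = dq c m z
  rad : dq b m z ≤ 1

/-- Two points at the same distance, at most one, from the point `(m, z)` of a wall. -/
structure Pair (H : ℝ) (a b : Pt) (m z : ℝ) : Prop where
  hab : Lt a b
  ha0 : 0 ≤ a.2
  hbH : b.2 ≤ H
  sab : 1 ≤ sq a b
  eab : dq a m z = dq b m z
  rad : dq a m z ≤ 1

/-- The local certificate: every restricted Delaunay cell of the strip has value at least one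
half.  `F` is the value of an edge directed upwards, `B` and `T` are the wall functions. -/
structure Cells (H : ℝ) (F : Pt → Pt → ℝ) (B T : Pt → ℝ) : Prop where
  ins : ∀ a b c m z, Tri H a b c m z → m < b.1 → F a c + 1 / 2 ≤ F a b + F b c
  del : ∀ a b c m z, Tri H a b c m z → b.1 < m → F a b + F b c + 1 / 2 ≤ F a c
  insB : ∀ b a m, Pair H b a m 0 → m < b.1 → B a + 1 / 2 ≤ B b + F b a
  delB : ∀ b a m, Pair H b a m 0 → b.1 < m → B b + F b a + 1 / 2 ≤ B a
  insT : ∀ a b m, Pair H a b m H → m < b.1 → T a + 1 / 2 ≤ F a b + T b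
  delT : ∀ a b m, Pair H a b m H → b.1 < m → F a b + T b + 1 / 2 ≤ T a

/-- Potential of the part of a path above `p`. -/
def path (F : Pt → Pt → ℝ) (T : Pt → ℝ) : Pt → List Pt → ℝ
  | p, [] => T p
  | p, q :: l => F p q + path F T q l

/-- Potential of a path. -/
def phi (F : Pt → Pt → ℝ) (B T : Pt → ℝ) : List Pt → ℝ
  | [] => 0
  | p :: l => B p + path F T p l

/-- Potential of the part of a path from `p` to `a`. -/
def pre (F : Pt → Pt → ℝ) : Pt → List Pt → Pt → ℝ
  | p, [], a => F p a
  | p, q :: l, a => F p q + pre F q l a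

/-- Potential of the part of a path below `a`. -/
def cst (F : Pt → Pt → ℝ) (B : Pt → ℝ) : List Pt → Pt → ℝ
  | [], a => B a
  | p :: l, a => B p + pre F p l a

theorem path_append (F : Pt → Pt → ℝ) (T : Pt → ℝ) (p : Pt) (l : List Pt) (a : Pt)
    (r : List Pt) : path F T p (l ++ a :: r) = pre F p l a + path F T a r := by
  induction l generalizing p with
  | nil => rfl
  | cons q l ih =>
    show F p q + path F T q (l ++ a :: r) = F p q + pre F q l a + path F T a r
    rw [ih]
    ring

theorem phi_append (F : Pt → Pt → ℝ) (B T : Pt → ℝ) (l : List Pt) (a : Pt) (r : List Pt) :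
    phi F B T (l ++ a :: r) = cst F B l a + path F T a r := by
  cases l with
  | nil => rfl
  | cons p l =>
    show B p + path F T p (l ++ a :: r) = B p + pre F p l a + path F T a r
    rw [path_append]
    ring

/-- The standing assumptions at time `m`. -/
structure Ctx (X : Finset Pt) (H m : ℝ) : Prop where
  hH : 0 ≤ H
  sep : UnitSep X
  str : InStrip H X
  sat : ∀ z, 0 ≤ z → z ≤ H → ∃ p ∈ X, dq p m z ≤ 1

theorem Ctx.rad {X : Finset Pt} {H m z : ℝ} {p : Pt} (h : Ctx X H m) (h0 : 0 ≤ z) (hH : z ≤ H)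
    (hp : Vis X p m z) : dq p m z ≤ 1 := by
  obtain ⟨q, hq, hq1⟩ := h.sat z h0 hH
  exact (hp.2 q hq).trans hq1

theorem Ctx.sq_le {X : Finset Pt} {H m : ℝ} {p q : Pt} (h : Ctx X H m) (hp : p ∈ X) (hq : q ∈ X)
    (hne : p ≠ q) : 1 ≤ sq p q := h.sep p hp q hq hne

/-- The data of a move in the interior. -/
theorem tri_of {X : Finset Pt} {H m : ℝ} {l r : List Pt} {a c q : Pt} (hX : Ctx X H m)
    (h : Valid X H m (l ++ a :: c :: r)) (hq : Seen X H q m) (haq : Lt a q) (hqc : Lt q c) :
    ∃ z, Tri H a q c m z := by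
  obtain ⟨z, h0, hH, ha, hq', hc⟩ := triple h hq haq hqc
  exact ⟨z, haq, hqc, h0, hH, (hX.str a ha.1).1, (hX.str c hc.1).2,
    hX.sq_le ha.1 hq'.1 haq.ne, hX.sq_le hq'.1 hc.1 hqc.ne, hX.sq_le ha.1 hc.1 (haq.trans hqc).ne,
    ha.dq_eq hq', hq'.dq_eq hc, hX.rad h0 hH hq'⟩

theorem bot_of {X : Finset Pt} {H m : ℝ} {r : List Pt} {a q : Pt} (hX : Ctx X H m)
    (h : Valid X H m (a :: r)) (hq : Seen X H q m) (hqa : Lt q a) : Pair H q a m 0 := by
  obtain ⟨ha, hq'⟩ := bottom hX.hH h hq hqa
  exact ⟨hqa, (hX.str q hq'.1).1, (hX.str a ha.1).2, hX.sq_le hq'.1 ha.1 hqa.ne, hq'.dq_eq ha,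
    hX.rad le_rfl hX.hH hq'⟩

theorem top_of {X : Finset Pt} {H m : ℝ} {l : List Pt} {a q : Pt} (hX : Ctx X H m)
    (h : Valid X H m (l ++ [a])) (hq : Seen X H q m) (haq : Lt a q) : Pair H a q m H := by
  obtain ⟨ha, hq'⟩ := top hX.hH h hq haq
  exact ⟨haq, (hX.str a ha.1).1, (hX.str q hq'.1).2, hX.sq_le ha.1 hq'.1 haq.ne, ha.dq_eq hq',
    hX.rad hX.hH le_rfl ha⟩

theorem valid_ne_nil {X : Finset Pt} {H m : ℝ} (hH : 0 ≤ H) (h : Valid X H m []) : False := by
  obtain ⟨p, hp, -⟩ := h.cover 0 le_rfl hH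
  simp at hp

/-- Gain of the insertion of a point. -/
theorem gain_ins {X : Finset Pt} {H m : ℝ} {F : Pt → Pt → ℝ} {B T : Pt → ℝ}
    (hc : Cells H F B T) (hX : Ctx X H m) {l r : List Pt} {q : Pt} (h : Valid X H m (l ++ r))
    (h1 : ∀ p ∈ l, Lt p q) (h2 : ∀ p ∈ r, Lt q p) (hq : Seen X H q m) (hm : m < q.1) :
    phi F B T (l ++ r) + 1 / 2 ≤ phi F B T (l ++ q :: r) := by
  rcases List.eq_nil_or_concat l with rfl | ⟨l', a, rfl⟩
  · cases r with
    | nil => exact (valid_ne_nil hX.hH h).elim
    | cons c r =>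
      have := hc.insB q c m (bot_of hX h hq (h2 c (by simp))) hm
      show B c + path F T c r + 1 / 2 ≤ B q + (F q c + path F T c r)
      linarith
  · rw [List.concat_eq_append] at *
    have haq : Lt a q := h1 a (by simp)
    cases r with
    | nil =>
      rw [List.append_nil] at h ⊢
      have := hc.insT a q m (top_of hX h hq haq) hm
      rw [phi_append, List.append_assoc, List.singleton_append, phi_append]
      show cst F B l' a + T a + 1 / 2 ≤ cst F B l' a + (F a q + T q)
      linarith
    | cons c r =>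
      rw [List.append_assoc, List.singleton_append] at h
      obtain ⟨z, hz⟩ := tri_of hX h hq haq (h2 c (by simp))
      have := hc.ins a q c m z hz hm
      rw [List.append_assoc, List.singleton_append, List.append_assoc, List.singleton_append,
        phi_append, phi_append]
      show cst F B l' a + (F a c + path F T c r) + 1 / 2 ≤
        cst F B l' a + (F a q + (F q c + path F T c r))
      linarith

/-- Gain of the removal of a point. -/
theorem gain_del {X : Finset Pt} {H m : ℝ} {F : Pt → Pt → ℝ} {B T : Pt → ℝ}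
    (hc : Cells H F B T) (hX : Ctx X H m) {l r : List Pt} {q : Pt} (h : Valid X H m (l ++ r))
    (h1 : ∀ p ∈ l, Lt p q) (h2 : ∀ p ∈ r, Lt q p) (hq : Seen X H q m) (hm : q.1 < m) :
    phi F B T (l ++ q :: r) + 1 / 2 ≤ phi F B T (l ++ r) := by
  rcases List.eq_nil_or_concat l with rfl | ⟨l', a, rfl⟩
  · cases r with
    | nil => exact (valid_ne_nil hX.hH h).elim
    | cons c r =>
      have := hc.delB q c m (bot_of hX h hq (h2 c (by simp))) hm
      show B q + (F q c + path F T c r) + 1 / 2 ≤ B c + path F T c r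
      linarith
  · rw [List.concat_eq_append] at *
    have haq : Lt a q := h1 a (by simp)
    cases r with
    | nil =>
      rw [List.append_nil] at h ⊢
      have := hc.delT a q m (top_of hX h hq haq) hm
      rw [List.append_assoc, List.singleton_append, phi_append, phi_append]
      show cst F B l' a + (F a q + T q) + 1 / 2 ≤ cst F B l' a + T a
      linarith
    | cons c r =>
      rw [List.append_assoc, List.singleton_append] at h
      obtain ⟨z, hz⟩ := tri_of hX h hq haq (h2 c (by simp))
      have := hc.del a q c m z hz hm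
      rw [List.append_assoc, List.singleton_append, List.append_assoc, List.singleton_append,
        phi_append, phi_append]
      show cst F B l' a + (F a q + (F q c + path F T c r)) + 1 / 2 ≤
        cst F B l' a + (F a c + path F T c r)
      linarith

end Pool.Agent.Strip051.Sweep
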