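import Pool.Agent.Strip051.Sweep.Abs

/-! # Potentials along the sweep

If every elementary insertion increases a potential of the sorted list of fat sites by at least one
and no elementary deletion decreases it, then the potential minus the number of sites met so far is
nondecreasing. -/

namespace Pool.Agent.Strip051.Sweep

open Filter Topology

variable {ι : Type*}

/-- Sum over the edges plus a term for the last site. -/
def chain (φ : ι → ι → ℝ) (top : ι → ℝ) : ι → List ι → ℝ
  | a, [] => top a
  | a, b :: Q => φ a b + chain φ top b Q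

/-- The potential of a list. -/
def pot (bot : ι → ℝ) (φ : ι → ι → ℝ) (top : ι → ℝ) : List ι → ℝ
  | [] => 0
  | a :: Q => bot a + chain φ top a Q

variable {bot top : ι → ℝ} {φ : ι → ι → ℝ}

theorem chain_mid (L1 : List ι) (b a q c : ι) (L2 : List ι) :
    chain φ top b (L1 ++ a :: q :: c :: L2) =
      chain φ top b (L1 ++ a :: c :: L2) + (φ a q + φ q c - φ a c) := by
  induction L1 generalizing b with
  | nil => simp only [List.nil_append, chain]; ring
  | cons e L1 ih => simp only [List.cons_append, chain, ih]; ring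

theorem chain_last (L1 : List ι) (b a q : ι) :
    chain φ top b (L1 ++ [a, q]) = chain φ top b (L1 ++ [a]) + (φ a q + top q - top a) := by
  induction L1 generalizing b with
  | nil => simp only [List.nil_append, chain]; ring
  | cons e L1 ih => simp only [List.cons_append, chain, ih]; ring

theorem pot_mid (L1 : List ι) (a q c : ι) (L2 : List ι) :
    pot bot φ top (L1 ++ a :: q :: c :: L2) =
      pot bot φ top (L1 ++ a :: c :: L2) + (φ a q + φ q c - φ a c) := by
  cases L1 with
  | nil => simp only [List.nil_append, pot, chain]; ring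
  | cons e L1 => simp only [List.cons_append, pot, chain_mid]; ring

theorem pot_last (L1 : List ι) (a q : ι) :
    pot bot φ top (L1 ++ [a, q]) = pot bot φ top (L1 ++ [a]) + (φ a q + top q - top a) := by
  cases L1 with
  | nil => simp only [List.nil_append, pot, chain]; ring
  | cons e L1 => simp only [List.cons_append, pot, chain_last]; ring

theorem pot_first (q c : ι) (L2 : List ι) :
    pot bot φ top (q :: c :: L2) = pot bot φ top (c :: L2) + (bot q + φ q c - bot c) := by
  simp only [pot, chain]; ring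

/-- Strictly sorted lists with the same members are equal. -/
theorem eq_of_sorted {A : ι → ℝ} {l l' : List ι} (h : l.Pairwise (fun a b => A a < A b))
    (h' : l'.Pairwise (fun a b => A a < A b)) (hm : ∀ p, p ∈ l ↔ p ∈ l') : l = l' := by
  have n1 : l.Nodup := h.imp fun hab e => by rw [e] at hab; exact lt_irrefl _ hab
  have n2 : l'.Nodup := h'.imp fun hab e => by rw [e] at hab; exact lt_irrefl _ hab
  exact List.Perm.eq_of_pairwise (fun a b _ _ h1 h2 => absurd h1 (not_lt.2 h2.le)) h h'
    ((List.perm_ext_iff_of_nodup n1 n2).2 hm)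

/-- Every finite set on which `A` is injective is the set of members of a strictly sorted list. -/
theorem exists_sorted {A : ι → ℝ} (F : Finset ι) (hA : ∀ p ∈ F, ∀ q ∈ F, A p = A q → p = q) :
    ∃ l : List ι, l.Pairwise (fun a b => A a < A b) ∧ ∀ p, p ∈ l ↔ p ∈ F := by
  classical
  revert hA
  refine Finset.induction_on_max_value (fun p => A p) F ?_ ?_
  · intro _
    exact ⟨[], List.Pairwise.nil, by simp⟩
  · intro p s hps hmax ih hA
    obtain ⟨l, h1, h2⟩ := ih fun a ha b hb =>
      hA a (Finset.mem_insert_of_mem ha) b (Finset.mem_insert_of_mem hb)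
    refine ⟨l ++ [p], ?_, ?_⟩
    · rw [List.pairwise_append]
      refine ⟨h1, List.pairwise_singleton _ _, ?_⟩
      intro a ha b hb
      rw [List.mem_singleton] at hb
      subst hb
      have ha' : a ∈ s := (h2 a).1 ha
      refine lt_of_le_of_ne (hmax a ha') ?_
      intro e
      exact hps (hA a (Finset.mem_insert_of_mem ha') b (Finset.mem_insert_self _ _) e ▸ ha')
    · intro a
      rw [List.mem_append, List.mem_singleton, Finset.mem_insert, h2 a, or_comm]

/-- The gain inequalities: `midIns`, `botIns`, `topIns` for insertions, the others for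
deletions. -/
structure Gains (d : Data ι) (bot : ι → ℝ) (φ : ι → ι → ℝ) (top : ι → ℝ) (x0 x1 : ℝ) : Prop where
  midDel : ∀ x t a q c, x0 ≤ x → x ≤ x1 → d.Own a x t → d.Own q x t → d.Own c x t →
    d.A a < d.A q → d.A q < d.A c →
    d.B q * (d.A c - d.A a) < d.B a * (d.A c - d.A q) + d.B c * (d.A q - d.A a) →
    φ a q + φ q c ≤ φ a c
  midIns : ∀ x t a q c, x0 ≤ x → x ≤ x1 → d.Own a x t → d.Own q x t → d.Own c x t →
    d.A a < d.A q → d.A q < d.A c →
    d.B a * (d.A c - d.A q) + d.B c * (d.A q - d.A a) < d.B q * (d.A c - d.A a) →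
    φ a c + 1 ≤ φ a q + φ q c
  botDel : ∀ x q c, x0 ≤ x → x ≤ x1 → d.Own q x 0 → d.Own c x 0 → d.A q < d.A c → d.B q < d.B c →
    bot q + φ q c ≤ bot c
  botIns : ∀ x q c, x0 ≤ x → x ≤ x1 → d.Own q x 0 → d.Own c x 0 → d.A q < d.A c → d.B c < d.B q →
    bot c + 1 ≤ bot q + φ q c
  topDel : ∀ x a q, x0 ≤ x → x ≤ x1 → d.Own a x d.H → d.Own q x d.H → d.A a < d.A q →
    d.B q < d.B a → φ a q + top q ≤ top a
  topIns : ∀ x a q, x0 ≤ x → x ≤ x1 → d.Own a x d.H → d.Own q x d.H → d.A a < d.A q →
    d.B a < d.B q → top a + 1 ≤ φ a q + top q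

namespace Data

variable {d : Data ι}

theorem flip_right {x : ℝ} {L1 L2 : List ι} {q : ι}
    (hsort : (L1 ++ q :: L2).Pairwise (fun a b => d.A a < d.A b))
    (hmem : ∀ p ∈ L1 ++ q :: L2, ∀ᶠ y in 𝓝[>] x, d.Fat p y)
    (hfat : ∀ p, d.Fat p x → p ∈ L1 ++ q :: L2) (hq : ¬ d.Fat q x) :
    d.neg.Flip (-x) L1 q L2 := by
  refine flip_left (d := d.neg) (x := -x) hsort ?_ ?_ ?_
  · intro p hp
    have h1 := hmem p hp
    have h2 : Tendsto (fun y : ℝ => -y) (𝓝[<] (-x)) (𝓝[>] x) := by
      have := tendsto_neg_nhdsLT (a := -x)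
      rwa [neg_neg] at this
    filter_upwards [h2.eventually h1] with y hy
    rw [neg_fat]
    exact hy
  · intro p hp
    rw [neg_fat, neg_neg] at hp
    exact hfat p hp
  · rw [neg_fat, neg_neg]
    exact hq

theorem pot_erase_left {x0 x1 x : ℝ} (hG : Gains d bot φ top x0 x1) (h0 : x0 ≤ x) (h1 : x ≤ x1)
    {L1 L2 : List ι} {q : ι} (hf : d.Flip x L1 q L2) :
    pot bot φ top (L1 ++ q :: L2) ≤ pot bot φ top (L1 ++ L2) := by
  rcases hf with ⟨L1', a, L2', c, t, rfl, rfl, ha, hq, hc, hA1, hA2, hB⟩ |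
    ⟨c, L2', rfl, rfl, hq, hc, hA, hB⟩ | ⟨L1', a, rfl, rfl, ha, hq, hA, hB⟩
  · have e1 : L1' ++ [a] ++ q :: c :: L2' = L1' ++ a :: q :: c :: L2' := by simp
    have e2 : L1' ++ [a] ++ c :: L2' = L1' ++ a :: c :: L2' := by simp
    rw [e1, e2, pot_mid]
    linarith [hG.midDel x t a q c h0 h1 ha hq hc hA1 hA2 hB]
  · simp only [List.nil_append]
    rw [pot_first]
    linarith [hG.botDel x q c h0 h1 hq hc hA hB]
  · have e1 : L1' ++ [a] ++ [q] = L1' ++ [a, q] := by simp
    rw [e1, List.append_nil, pot_last]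
    linarith [hG.topDel x a q h0 h1 ha hq hA hB]

theorem pot_erase_right {x0 x1 x : ℝ} (hG : Gains d bot φ top x0 x1) (h0 : x0 ≤ x) (h1 : x ≤ x1)
    {L1 L2 : List ι} {q : ι} (hf : d.neg.Flip (-x) L1 q L2) :
    pot bot φ top (L1 ++ L2) + 1 ≤ pot bot φ top (L1 ++ q :: L2) := by
  unfold Flip at hf
  simp only [neg_own, neg_neg] at hf
  rcases hf with ⟨L1', a, L2', c, t, rfl, rfl, ha, hq, hc, hA1, hA2, hB⟩ |
    ⟨c, L2', rfl, rfl, hq, hc, hA, hB⟩ | ⟨L1', a, rfl, rfl, ha, hq, hA, hB⟩
  · have e1 : L1' ++ [a] ++ q :: c :: L2' = L1' ++ a :: q :: c :: L2' := by simp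
    have e2 : L1' ++ [a] ++ c :: L2' = L1' ++ a :: c :: L2' := by simp
    rw [e1, e2, pot_mid]
    simp only [neg] at hA1 hA2 hB
    have := hG.midIns x t a q c h0 h1 ha hq hc hA1 hA2 (by linarith)
    linarith
  · simp only [List.nil_append]
    rw [pot_first]
    simp only [neg] at hA hB
    linarith [hG.botIns x q c h0 h1 hq hc hA (by linarith)]
  · have e1 : L1' ++ [a] ++ [q] = L1' ++ [a, q] := by simp
    rw [e1, List.append_nil, pot_last]
    simp only [neg] at ha hq hA hB
    linarith [hG.topIns x a q h0 h1 ha hq hA (by linarith)]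

/-- Deletions at time `x`. -/
theorem pot_le_of_left {x0 x1 x : ℝ} (hG : Gains d bot φ top x0 x1) (h0 : x0 ≤ x) (h1 : x ≤ x1)
    {l0 : List ι} (h0s : l0.Pairwise (fun a b => d.A a < d.A b)) (h0m : ∀ p, p ∈ l0 ↔ d.Fat p x) :
    ∀ (n : ℕ) (l : List ι), l.length = n → l.Pairwise (fun a b => d.A a < d.A b) →
      (∀ p ∈ l, ∀ᶠ y in 𝓝[<] x, d.Fat p y) → (∀ p, d.Fat p x → p ∈ l) →
      pot bot φ top l ≤ pot bot φ top l0 := by
  intro n
  induction n with
  | zero =>
    intro l hl hs _ hfat
    have : l = l0 := by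
      refine eq_of_sorted hs h0s fun p => ?_
      rw [h0m p]
      constructor
      · intro hp
        rw [List.length_eq_zero_iff.1 hl] at hp
        exact absurd hp (by simp)
      · exact hfat p
    rw [this]
  | succ n ih =>
    intro l hl hs hmem hfat
    by_cases hall : ∀ p ∈ l, d.Fat p x
    · have : l = l0 := eq_of_sorted hs h0s fun p => by
        rw [h0m p]
        exact ⟨hall p, hfat p⟩
      rw [this]
    · push Not at hall
      obtain ⟨q, hql, hq⟩ := hall
      obtain ⟨L1, L2, rfl⟩ := List.append_of_mem hql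
      have hflip := flip_left hs hmem hfat hq
      have hsub : (L1 ++ L2).Sublist (L1 ++ q :: L2) :=
        List.Sublist.append_left (List.sublist_cons_self q L2) L1
      refine (pot_erase_left hG h0 h1 hflip).trans (ih (L1 ++ L2) ?_ (hs.sublist hsub) ?_ ?_)
      · rw [List.length_append] at hl ⊢
        rw [List.length_cons] at hl
        omega
      · exact fun p hp => hmem p (hsub.subset hp)
      · intro p hp
        have h2 := hfat p hp
        rw [List.mem_append, List.mem_cons] at h2
        rw [List.mem_append]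
        rcases h2 with h | h | h
        · exact Or.inl h
        · rw [h] at hp
          exact absurd hp hq
        · exact Or.inr h

/-- Insertions at time `x`. -/
theorem pot_ge_of_right {x0 x1 x : ℝ} (hG : Gains d bot φ top x0 x1) (h0 : x0 ≤ x) (h1 : x ≤ x1)
    {l0 : List ι} (h0s : l0.Pairwise (fun a b => d.A a < d.A b)) (h0m : ∀ p, p ∈ l0 ↔ d.Fat p x) :
    ∀ (n : ℕ) (l : List ι), l.length = n → l.Pairwise (fun a b => d.A a < d.A b) →
      (∀ p ∈ l, ∀ᶠ y in 𝓝[>] x, d.Fat p y) → (∀ p, d.Fat p x → p ∈ l) →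
      pot bot φ top l0 + l.length ≤ pot bot φ top l + l0.length := by
  intro n
  induction n with
  | zero =>
    intro l hl hs _ hfat
    have : l = l0 := by
      refine eq_of_sorted hs h0s fun p => ?_
      rw [h0m p]
      constructor
      · intro hp
        rw [List.length_eq_zero_iff.1 hl] at hp
        exact absurd hp (by simp)
      · exact hfat p
    rw [this]
  | succ n ih =>
    intro l hl hs hmem hfat
    by_cases hall : ∀ p ∈ l, d.Fat p x
    · have : l = l0 := eq_of_sorted hs h0s fun p => by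
        rw [h0m p]
        exact ⟨hall p, hfat p⟩
      rw [this]
    · push Not at hall
      obtain ⟨q, hql, hq⟩ := hall
      obtain ⟨L1, L2, rfl⟩ := List.append_of_mem hql
      have hflip := flip_right hs hmem hfat hq
      have hsub : (L1 ++ L2).Sublist (L1 ++ q :: L2) :=
        List.Sublist.append_left (List.sublist_cons_self q L2) L1
      have hlen : (L1 ++ q :: L2).length = (L1 ++ L2).length + 1 := by
        simp only [List.length_append, List.length_cons]
        omega
      have h3 := pot_erase_right hG h0 h1 hflip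
      have h4 := ih (L1 ++ L2) (by omega) (hs.sublist hsub)
        (fun p hp => hmem p (hsub.subset hp)) (by
          intro p hp
          have h2 := hfat p hp
          rw [List.mem_append, List.mem_cons] at h2
          rw [List.mem_append]
          rcases h2 with h | h | h
          · exact Or.inl h
          · rw [h] at hp
            exact absurd hp hq
          · exact Or.inr h)
      rw [hlen]
      push_cast
      linarith

/-! ### The whole sweep -/

/-- The sorted list of the fat sites at time `x`. -/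
theorem exists_state (d : Data ι) (x : ℝ) :
    ∃ l : List ι, l.Pairwise (fun a b => d.A a < d.A b) ∧ ∀ p, p ∈ l ↔ d.Fat p x := by
  classical
  obtain ⟨l, h1, h2⟩ := exists_sorted (A := d.A) (d.S.filter fun p => d.Fat p x)
    (fun p hp q hq => d.inj p (Finset.mem_filter.1 hp).1 q (Finset.mem_filter.1 hq).1)
  refine ⟨l, h1, fun p => ?_⟩
  rw [h2 p, Finset.mem_filter]
  exact ⟨fun h => h.2, fun h => ⟨h.mem, h⟩⟩

/-- The state at time `x`. -/
noncomputable def state (d : Data ι) (x : ℝ) : List ι := (exists_state d x).choose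

theorem state_sorted (x : ℝ) : (d.state x).Pairwise (fun a b => d.A a < d.A b) :=
  (exists_state d x).choose_spec.1

theorem mem_state {x : ℝ} {p : ι} : p ∈ d.state x ↔ d.Fat p x :=
  (exists_state d x).choose_spec.2 p

theorem state_nodup (x : ℝ) : (d.state x).Nodup :=
  (state_sorted x).imp fun hab e => by rw [e] at hab; exact lt_irrefl _ hab

open Classical in
/-- The sites which have been fat between `x0` and `x`. -/
noncomputable def seen (d : Data ι) (x0 x : ℝ) : Finset ι :=
  d.S.filter fun p => ∃ y, x0 ≤ y ∧ y ≤ x ∧ d.Fat p y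

theorem mem_seen {x0 x : ℝ} {p : ι} : p ∈ d.seen x0 x ↔ ∃ y, x0 ≤ y ∧ y ≤ x ∧ d.Fat p y := by
  classical
  unfold seen
  rw [Finset.mem_filter]
  exact ⟨fun h => h.2, fun h => ⟨by obtain ⟨y, _, _, hy⟩ := h; exact hy.mem, h⟩⟩

theorem eventually_left {x0 x1 x : ℝ} (hG : Gains d bot φ top x0 x1) (h0 : x0 < x) (h1 : x ≤ x1) :
    ∀ᶠ y in 𝓝[<] x, pot bot φ top (d.state y) - (d.seen x0 y).card ≤
      pot bot φ top (d.state x) - (d.seen x0 x).card := by
  have e1 : ∀ᶠ y in 𝓝[<] x, ∀ p ∈ d.S, (d.Fat p y → ∀ᶠ z in 𝓝[<] x, d.Fat p z) := by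
    refine (Filter.eventually_all_finset _).2 fun p hp => ?_
    rcases fat_left (d := d) p x with h | h
    · exact Eventually.of_forall fun y _ => h
    · filter_upwards [h] with y hy hy'
      exact absurd hy' hy
  have e2 : ∀ᶠ y in 𝓝[<] x, ∀ p ∈ d.S, (d.Fat p x → d.Fat p y) := by
    refine (Filter.eventually_all_finset _).2 fun p hp => ?_
    by_cases h : d.Fat p x
    · filter_upwards [h.eventually.filter_mono nhdsWithin_le_nhds] with y hy _
      exact hy
    · exact Eventually.of_forall fun y hy => absurd hy h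
  have e3 : ∀ᶠ y in 𝓝[<] x, ∀ p ∈ d.S, (p ∈ d.seen x0 x → p ∈ d.seen x0 y) := by
    refine (Filter.eventually_all_finset _).2 fun p hp => ?_
    by_cases h : p ∈ d.seen x0 x
    · obtain ⟨z, hz0, hz1, hz⟩ := mem_seen.1 h
      rcases hz1.eq_or_lt with e | hlt
      · rw [e] at hz
        have h3 : ∀ᶠ y in 𝓝[<] x, x0 < y ∧ y < x := Ioo_mem_nhdsLT h0
        filter_upwards [hz.eventually.filter_mono nhdsWithin_le_nhds, h3] with y hy hy' _
        exact mem_seen.2 ⟨y, hy'.1.le, le_rfl, hy⟩
      · have h3 : ∀ᶠ y in 𝓝[<] x, z < y ∧ y < x := Ioo_mem_nhdsLT hlt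
        filter_upwards [h3] with y hy _
        exact mem_seen.2 ⟨z, hz0, hy.1.le, hz⟩
    · exact Eventually.of_forall fun y hy => absurd hy h
  filter_upwards [e1, e2, e3] with y h2 h3 h4
  have h5 : pot bot φ top (d.state y) ≤ pot bot φ top (d.state x) :=
    pot_le_of_left hG h0.le h1 (state_sorted x) (fun p => mem_state) _ (d.state y) rfl
      (state_sorted y) (fun p hp => by
        have hp' := mem_state.1 hp
        exact h2 p hp'.mem hp') (fun p hp => mem_state.2 (h3 p hp.mem hp))
  have h6 : (d.seen x0 x).card ≤ (d.seen x0 y).card :=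
    Finset.card_le_card fun p hp => h4 p (by
      obtain ⟨_, _, _, hy⟩ := mem_seen.1 hp
      exact hy.mem) hp
  have h7 : ((d.seen x0 x).card : ℝ) ≤ (d.seen x0 y).card := by exact_mod_cast h6
  linarith

theorem eventually_right {x0 x1 x : ℝ} (hG : Gains d bot φ top x0 x1) (h0 : x0 ≤ x)
    (h1 : x ≤ x1) :
    ∀ᶠ y in 𝓝[>] x, pot bot φ top (d.state x) - (d.seen x0 x).card ≤
      pot bot φ top (d.state y) - (d.seen x0 y).card := by
  classical
  have e1 : ∀ᶠ y in 𝓝[>] x, ∀ p ∈ d.S, (d.Fat p y → ∀ᶠ z in 𝓝[>] x, d.Fat p z) := by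
    refine (Filter.eventually_all_finset _).2 fun p hp => ?_
    rcases fat_right (d := d) p x with h | h
    · exact Eventually.of_forall fun y _ => h
    · filter_upwards [h] with y hy hy'
      exact absurd hy' hy
  have e2 : ∀ᶠ y in 𝓝[>] x, ∀ p ∈ d.S, (d.Fat p x → d.Fat p y) := by
    refine (Filter.eventually_all_finset _).2 fun p hp => ?_
    by_cases h : d.Fat p x
    · filter_upwards [h.eventually.filter_mono nhdsWithin_le_nhds] with y hy _
      exact hy
    · exact Eventually.of_forall fun y hy => absurd hy h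
  have e3 : ∀ᶠ y in 𝓝[>] x, ∀ p ∈ d.S, (p ∈ d.seen x0 y → p ∈ d.seen x0 x ∨
      (d.Fat p y ∧ ¬ d.Fat p x)) := by
    refine (Filter.eventually_all_finset _).2 fun p hp => ?_
    by_cases h : p ∈ d.seen x0 x
    · exact Eventually.of_forall fun y _ => Or.inl h
    · have hx : ¬ d.Fat p x := fun hf => h (mem_seen.2 ⟨x, h0, le_rfl, hf⟩)
      rcases fat_right (d := d) p x with h2 | h2
      · filter_upwards [h2] with y hy _
        exact Or.inr ⟨hy, hx⟩
      · obtain ⟨b, hb, hbs⟩ := mem_nhdsGT_iff_exists_Ioo_subset.1 h2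
        have hb' : x < b := hb
        have h3 : ∀ᶠ y in 𝓝[>] x, x < y ∧ y < b := Ioo_mem_nhdsGT hb'
        filter_upwards [h3] with y hy hsy
        obtain ⟨z, hz0, hz1, hz⟩ := mem_seen.1 hsy
        rcases le_or_gt z x with h4 | h4
        · exact Or.inl (mem_seen.2 ⟨z, hz0, h4, hz⟩)
        · exact absurd hz (hbs ⟨h4, hz1.trans_lt hy.2⟩)
  filter_upwards [e1, e2, e3] with y h2 h3 h4
  have h5 := pot_ge_of_right hG h0 h1 (state_sorted x) (fun p => mem_state) _ (d.state y) rfl
      (state_sorted y) (fun p hp => by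
        have hp' := mem_state.1 hp
        exact h2 p hp'.mem hp') (fun p hp => mem_state.2 (h3 p hp.mem hp))
  have hsub : d.seen x0 y ⊆ d.seen x0 x ∪ ((d.state y).toFinset \ (d.state x).toFinset) := by
    intro p hp
    have hpS : p ∈ d.S := by
      obtain ⟨_, _, _, hy⟩ := mem_seen.1 hp
      exact hy.mem
    rcases h4 p hpS hp with h | ⟨h, h'⟩
    · exact Finset.mem_union_left _ h
    · refine Finset.mem_union_right _ ?_
      rw [Finset.mem_sdiff, List.mem_toFinset, List.mem_toFinset, mem_state, mem_state]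
      exact ⟨h, h'⟩
  have h6 := (Finset.card_le_card hsub).trans (Finset.card_union_le _ _)
  have h7 : (d.state x).toFinset ⊆ (d.state y).toFinset := by
    intro p hp
    rw [List.mem_toFinset, mem_state] at hp ⊢
    exact h3 p hp.mem hp
  rw [Finset.card_sdiff_of_subset h7, List.toFinset_card_of_nodup (state_nodup y),
    List.toFinset_card_of_nodup (state_nodup x)] at h6
  have h8 : (d.state x).length ≤ (d.state y).length := by
    rw [← List.toFinset_card_of_nodup (state_nodup y),
      ← List.toFinset_card_of_nodup (state_nodup x)]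
    exact Finset.card_le_card h7
  have h9 : (d.seen x0 y).card + (d.state x).length ≤
      (d.seen x0 x).card + (d.state y).length := by omega
  have h10 : ((d.seen x0 y).card : ℝ) + (d.state x).length ≤
      (d.seen x0 x).card + (d.state y).length := by exact_mod_cast h9
  linarith

/-- A function which is locally nondecreasing on both sides of every point is nondecreasing. -/
theorem le_of_local {G : ℝ → ℝ} {x0 x1 : ℝ} (h01 : x0 ≤ x1)
    (hl : ∀ x, x0 < x → x ≤ x1 → ∀ᶠ y in 𝓝[<] x, G y ≤ G x)
    (hr : ∀ x, x0 ≤ x → x < x1 → ∀ᶠ y in 𝓝[>] x, G x ≤ G y) : G x0 ≤ G x1 := by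
  set A : Set ℝ := {x | x0 ≤ x ∧ x ≤ x1 ∧ ∀ y, x0 ≤ y → y ≤ x → G x0 ≤ G y} with hA
  have h0A : x0 ∈ A := ⟨le_rfl, h01, fun y h h' => by rw [le_antisymm h h']⟩
  have hbdd : BddAbove A := ⟨x1, fun x hx => hx.2.1⟩
  set σ := sSup A with hσ
  have hσ0 : x0 ≤ σ := le_csSup hbdd h0A
  have hσ1 : σ ≤ x1 := csSup_le ⟨x0, h0A⟩ fun x hx => hx.2.1
  have hbelow : ∀ y, x0 ≤ y → y < σ → G x0 ≤ G y := by
    intro y hy hyσ
    obtain ⟨x, hx, hyx⟩ := exists_lt_of_lt_csSup ⟨x0, h0A⟩ hyσ
    exact hx.2.2 y hy hyx.le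
  have hσG : G x0 ≤ G σ := by
    rcases hσ0.eq_or_lt with e | h
    · rw [← e]
    · have h2 : ∀ᶠ y in 𝓝[<] σ, x0 < y ∧ y < σ := Ioo_mem_nhdsLT h
      obtain ⟨y, h3, h4⟩ := ((hl σ h hσ1).and h2).exists
      exact (hbelow y h4.1.le h4.2).trans h3
  rcases hσ1.eq_or_lt with e | h
  · rwa [e] at hσG
  · exfalso
    obtain ⟨b, hb, hbs⟩ := mem_nhdsGT_iff_exists_Ioo_subset.1 (hr σ hσ0 h)
    have hb' : σ < b := hb
    set z := min ((σ + b) / 2) x1 with hz
    have hz1 : σ < z := lt_min (by linarith) h
    have hz2 : z < b := (min_le_left _ _).trans_lt (by linarith)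
    have hzA : z ∈ A := by
      refine ⟨hσ0.trans hz1.le, min_le_right _ _, ?_⟩
      intro y hy hyz
      rcases lt_trichotomy y σ with h5 | h5 | h5
      · exact hbelow y hy h5
      · rw [h5]
        exact hσG
      · exact hσG.trans (hbs ⟨h5, hyz.trans_lt hz2⟩)
    exact absurd (le_csSup hbdd hzA) (not_le.2 hz1)

/-- **The sweep.** -/
theorem sweep {x0 x1 : ℝ} (h01 : x0 ≤ x1) (hG : Gains d bot φ top x0 x1) :
    pot bot φ top (d.state x0) + (d.seen x0 x1).card ≤
      pot bot φ top (d.state x1) + (d.state x0).length := by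
  classical
  have h := le_of_local (G := fun x => pot bot φ top (d.state x) - (d.seen x0 x).card) h01
    (fun x hx hx' => eventually_left hG hx hx')
    (fun x hx hx' => eventually_right hG hx hx'.le)
  have h2 : (d.seen x0 x0).card = (d.state x0).length := by
    rw [← List.toFinset_card_of_nodup (state_nodup x0)]
    congr 1
    ext p
    rw [mem_seen, List.mem_toFinset, mem_state]
    constructor
    · rintro ⟨y, hy, hy', h3⟩
      rwa [le_antisymm hy' hy] at h3
    · intro h3
      exact ⟨x0, le_rfl, le_rfl, h3⟩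
  have h3 : ((d.seen x0 x0).card : ℝ) = (d.state x0).length := by exact_mod_cast h2
  linarith

end Data

end Pool.Agent.Strip051.Sweep
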